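import Pool.Agent.PCS.Sec
import Pool.Agent.PCW.Low

/-!
# Products of planar sectors and half lines
-/

set_option autoImplicit false

open MeasureTheory Metric PCW PCS.Sec
open scoped RealInnerProductSpace

namespace PCG

/-- one plane for each element of `I` and `r` further coordinates -/
abbrev VV (I : Type) [Fintype I] (r : ℕ) := EuclideanSpace ℝ (I × Fin 2 ⊕ Fin r)

theorem wd_ge_gen {d : ℕ} {C : Set (E d)} (hC : C ⊆ closedBall 0 1) {u : E d} (hu : ‖u‖ = 1) {x y : E d} (hx : x ∈ C)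
    (hy : y ∈ C) : ⟪x, u⟫ - ⟪y, u⟫ ≤ wd C u := by
  have hb : ∀ z ∈ C, |⟪z, u⟫| ≤ 1 := by
    intro z hz
    have h1 : ‖z‖ ≤ 1 := by simpa using hC hz
    have h2 := abs_real_inner_le_norm z u
    rw [hu, mul_one] at h2
    exact h2.trans h1
  have h1 : ⟪x, u⟫ ≤ sSup ((fun x => ⟪x, u⟫) '' C) :=
    le_csSup ⟨1, by rintro _ ⟨z, hz, rfl⟩; exact (abs_le.1 (hb z hz)).2⟩ ⟨x, hx, rfl⟩
  have h2 : sInf ((fun x => ⟪x, u⟫) '' C) ≤ ⟪y, u⟫ :=
    csInf_le ⟨-1, by rintro _ ⟨z, hz, rfl⟩; exact (abs_le.1 (hb z hz)).1⟩ ⟨y, hy, rfl⟩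
  unfold wd
  linarith

/-- a packing in an isometric space gives a packing -/
theorem pack_of_isom {V : Type*} [NormedAddCommGroup V] [InnerProductSpace ℝ V] {d : ℕ} (e : V ≃ₗᵢ[ℝ] E d) {t : ℝ}
    {Ω : Type} [Fintype Ω] (C : Ω → Set V) (hc : ∀ k, Convex ℝ (C k)) (hb : ∀ k, C k ⊆ closedBall 0 1)
    (hd : ∀ k l, k ≠ l → Disjoint (interior (C k)) (interior (C l)))
    (hw : ∀ k, ∀ u : V, ‖u‖ = 1 → ∃ x ∈ C k, ∃ y ∈ C k, t ≤ ⟪x, u⟫ - ⟪y, u⟫) : Pack d t (Fintype.card Ω) := by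
  classical
  let f : Fin (Fintype.card Ω) ≃ Ω := (Fintype.equivFin Ω).symm
  have hb' : ∀ k, e '' C (f k) ⊆ closedBall 0 1 := by
    rintro k _ ⟨x, hx, rfl⟩
    have := hb _ hx
    rw [mem_closedBall_zero_iff] at this ⊢
    rwa [e.norm_map]
  refine ⟨fun k => e '' C (f k), fun k => ?_, hb', fun k l hkl => ?_, fun k u hu => ?_⟩
  · exact (hc (f k)).is_linear_image e.toLinearEquiv.toLinearMap.isLinear
  · have h1 : ∀ k, interior (e '' C (f k)) = e '' interior (C (f k)) := fun k =>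
      (e.toHomeomorph.image_interior (C (f k))).symm
    rw [h1, h1, Set.disjoint_image_iff e.injective]
    exact hd _ _ fun h => hkl (f.injective h)
  · obtain ⟨x, hx, y, hy, h⟩ := hw (f k) (e.symm u) (by rw [e.symm.norm_map, hu])
    have h2 : ∀ z : V, ⟪e z, u⟫ = ⟪z, e.symm u⟫ := by
      intro z
      rw [← e.inner_map_map z (e.symm u), e.apply_symm_apply]
    refine le_trans ?_ (wd_ge_gen (hb' k) hu (Set.mem_image_of_mem e hx) (Set.mem_image_of_mem e hy))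
    rw [h2, h2]
    exact h

theorem isCompact_sec (θ a : ℝ) : IsCompact (sec θ a) := by
  have h1 : IsClosed {x : E 2 | 0 ≤ ⟪x, e (a + Real.pi / 2)⟫} := isClosed_le continuous_const (by fun_prop)
  have h2 : IsClosed {x : E 2 | ⟪x, e (a + θ + Real.pi / 2)⟫ ≤ 0} := isClosed_le (by fun_prop) continuous_const
  have h3 : sec θ a = closedBall (0 : E 2) 1 ∩ ({x : E 2 | 0 ≤ ⟪x, e (a + Real.pi / 2)⟫} ∩
      {x : E 2 | ⟪x, e (a + θ + Real.pi / 2)⟫ ≤ 0}) := rfl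
  rw [h3]
  exact (isCompact_closedBall _ _).inter_right (h1.inter h2)

theorem sec_attain {θ : ℝ} (h0 : 0 < θ) (h1 : θ ≤ Real.pi / 2) (a : ℝ) (v : E 2) :
    ∃ p ∈ sec θ a, ∃ q ∈ sec θ a, 0 ≤ ⟪p, v⟫ ∧ ⟪q, v⟫ ≤ 0 ∧ Real.sin θ * ‖v‖ ≤ ⟪p, v⟫ - ⟪q, v⟫ := by
  have hz : (0 : E 2) ∈ sec θ a := ⟨by simp, by simp, by simp⟩
  have hne : (sec θ a).Nonempty := ⟨0, hz⟩
  have hcont : Continuous fun x : E 2 => ⟪x, v⟫ := by fun_prop
  obtain ⟨p, hp, hp'⟩ := (isCompact_sec θ a).exists_isMaxOn hne hcont.continuousOn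
  obtain ⟨q, hq, hq'⟩ := (isCompact_sec θ a).exists_isMinOn hne hcont.continuousOn
  have hp1 : 0 ≤ ⟪p, v⟫ := by simpa using hp' hz
  have hq1 : ⟪q, v⟫ ≤ 0 := by simpa using hq' hz
  refine ⟨p, hp, q, hq, hp1, hq1, ?_⟩
  by_cases hv : v = 0
  · simp [hv]
  have hn : 0 < ‖v‖ := norm_pos_iff.2 hv
  have hu : ‖(‖v‖⁻¹ • v)‖ = 1 := by rw [norm_smul, norm_inv, norm_norm, inv_mul_cancel₀ hn.ne']
  have h2 := wd_sec h0 h1 a _ hu
  have h3 : wd (sec θ a) (‖v‖⁻¹ • v) ≤ ‖v‖⁻¹ * (⟪p, v⟫ - ⟪q, v⟫) := by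
    unfold wd
    have h4 : sSup ((fun x => ⟪x, ‖v‖⁻¹ • v⟫) '' sec θ a) ≤ ‖v‖⁻¹ * ⟪p, v⟫ := by
      refine csSup_le (hne.image _) ?_
      rintro _ ⟨x, hx, rfl⟩
      simp only [real_inner_smul_right]
      exact mul_le_mul_of_nonneg_left (hp' hx) (inv_nonneg.2 hn.le)
    have h5 : ‖v‖⁻¹ * ⟪q, v⟫ ≤ sInf ((fun x => ⟪x, ‖v‖⁻¹ • v⟫) '' sec θ a) := by
      refine le_csInf (hne.image _) ?_
      rintro _ ⟨x, hx, rfl⟩
      simp only [real_inner_smul_right]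
      exact mul_le_mul_of_nonneg_left (hq' hx) (inv_nonneg.2 hn.le)
    rw [mul_sub]
    linarith
  have h6 := h2.trans h3
  rw [inv_mul_eq_div, le_div_iff₀ hn] at h6
  exact h6

section
variable {I : Type} [Fintype I] {r : ℕ}

/-- the component in the plane `i` -/
noncomputable def pr (x : VV I r) (i : I) : E 2 := WithLp.toLp 2 ![x (Sum.inl (i, 0)), x (Sum.inl (i, 1))]

lemma pr_zero (x : VV I r) (i : I) : pr x i 0 = x (Sum.inl (i, 0)) := rfl
lemma pr_one (x : VV I r) (i : I) : pr x i 1 = x (Sum.inl (i, 1)) := rfl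

lemma inner_VV (x u : VV I r) : ⟪x, u⟫ = ∑ i, ⟪pr x i, pr u i⟫ + ∑ j : Fin r, x (Sum.inr j) * u (Sum.inr j) := by
  have h1 : ⟪x, u⟫ = ∑ s, x s * u s := by
    simp [PiLp.inner_apply, mul_comm]
  rw [h1, Fintype.sum_sum_type, Fintype.sum_prod_type]
  congr 1
  refine Finset.sum_congr rfl fun i _ => ?_
  rw [Fin.sum_univ_two, inner2]
  rfl

lemma inner_pr_add (x y : VV I r) (i : I) (b : ℝ) : ⟪pr (x + y) i, e b⟫ = ⟪pr x i, e b⟫ + ⟪pr y i, e b⟫ := by
  rw [inner_e, inner_e, inner_e, pr_zero, pr_one, pr_zero, pr_one, pr_zero, pr_one, PiLp.add_apply, PiLp.add_apply]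
  ring

lemma inner_pr_smul (c : ℝ) (x : VV I r) (i : I) (b : ℝ) : ⟪pr (c • x) i, e b⟫ = c * ⟪pr x i, e b⟫ := by
  rw [inner_e, inner_e, pr_zero, pr_one, pr_zero, pr_one, PiLp.smul_apply, PiLp.smul_apply, smul_eq_mul, smul_eq_mul]
  ring

/-- the product of the sectors of angle `θ` which start at the directions `a i`, and of half lines -/
def cell (θ : ℝ) (b : Fin r → Bool) (a : I → ℝ) : Set (VV I r) := {x | ‖x‖ ≤ 1 ∧ (∀ i,
  0 ≤ ⟪pr x i, e (a i + Real.pi / 2)⟫ ∧ ⟪pr x i, e (a i + θ + Real.pi / 2)⟫ ≤ 0) ∧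
  ∀ j, 0 ≤ sg (b j) * x (Sum.inr j)}

lemma cell_sub (θ : ℝ) (b : Fin r → Bool) (a : I → ℝ) : cell θ b a ⊆ closedBall 0 1 := fun x hx => by
  rw [mem_closedBall_zero_iff]
  exact hx.1

lemma convex_cell (θ : ℝ) (b : Fin r → Bool) (a : I → ℝ) : Convex ℝ (cell θ b a) := by
  intro x hx y hy s t hs ht hst
  refine ⟨?_, fun i => ⟨?_, ?_⟩, fun j => ?_⟩
  · calc ‖s • x + t • y‖ ≤ ‖s • x‖ + ‖t • y‖ := norm_add_le _ _
      _ = s * ‖x‖ + t * ‖y‖ := by rw [norm_smul, norm_smul, Real.norm_of_nonneg hs, Real.norm_of_nonneg ht]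
      _ ≤ s * 1 + t * 1 := add_le_add (mul_le_mul_of_nonneg_left hx.1 hs) (mul_le_mul_of_nonneg_left hy.1 ht)
      _ = 1 := by linarith
  · rw [inner_pr_add, inner_pr_smul, inner_pr_smul]
    have h1 := mul_nonneg hs (hx.2.1 i).1
    have h2 := mul_nonneg ht (hy.2.1 i).1
    linarith
  · rw [inner_pr_add, inner_pr_smul, inner_pr_smul]
    have h1 := mul_nonneg hs (neg_nonneg.2 (hx.2.1 i).2)
    have h2 := mul_nonneg ht (neg_nonneg.2 (hy.2.1 i).2)
    linarith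
  · rw [PiLp.add_apply, PiLp.smul_apply, PiLp.smul_apply, smul_eq_mul, smul_eq_mul]
    have h1 := mul_nonneg hs (hx.2.2 j)
    have h2 := mul_nonneg ht (hy.2.2 j)
    nlinarith

lemma max_sq (c u : ℝ) : max (c * u) 0 * c * u = max (c * u) 0 ^ 2 := by
  rcases le_total 0 (c * u) with h | h
  · rw [max_eq_left h]
    ring
  · rw [max_eq_right h]
    ring

/-- a point of the product, from the components -/
lemma exists_pt {θ : ℝ} {b : Fin r → Bool} {a : I → ℝ} {u : VV I r} (p : I → E 2) (hp : ∀ i, p i ∈ sec θ (a i))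
    (hp0 : ∀ i, 0 ≤ ⟪p i, pr u i⟫) :
    ∃ x ∈ cell θ b a, ⟪x, u⟫ = √(∑ i, ⟪p i, pr u i⟫ ^ 2 + ∑ j : Fin r, max (sg (b j) * u (Sum.inr j)) 0 ^ 2) := by
  set S : ℝ := ∑ i, ⟪p i, pr u i⟫ ^ 2 + ∑ j : Fin r, max (sg (b j) * u (Sum.inr j)) 0 ^ 2 with hS
  have hS0 : 0 ≤ S := add_nonneg (Finset.sum_nonneg fun i _ => sq_nonneg _) (Finset.sum_nonneg fun i _ => sq_nonneg _)
  let X : VV I r := WithLp.toLp 2 fun s => match s with
    | Sum.inl (i, c) => ⟪p i, pr u i⟫ * p i c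
    | Sum.inr j => max (sg (b j) * u (Sum.inr j)) 0 * sg (b j)
  have hX : ∀ i, pr X i = ⟪p i, pr u i⟫ • p i := by
    intro i
    ext c
    fin_cases c
    · rfl
    · rfl
  have h1 : ⟪X, u⟫ = S := by
    rw [inner_VV, hS]
    congr 1
    · refine Finset.sum_congr rfl fun i _ => ?_
      rw [hX, real_inner_smul_left]
      ring
    · refine Finset.sum_congr rfl fun j _ => ?_
      exact max_sq _ _
  have h2 : ‖X‖ ^ 2 ≤ S := by
    rw [← real_inner_self_eq_norm_sq, inner_VV, hS]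
    refine add_le_add (Finset.sum_le_sum fun i _ => ?_) (Finset.sum_le_sum fun j _ => ?_)
    · rw [hX, real_inner_smul_left, real_inner_smul_right, real_inner_self_eq_norm_sq]
      have h3 : ‖p i‖ ≤ 1 := by simpa using (hp i).1
      have h4 : ‖p i‖ ^ 2 ≤ 1 := pow_le_one₀ (norm_nonneg _) h3
      have h5 : 0 ≤ ⟪p i, pr u i⟫ ^ 2 := sq_nonneg _
      nlinarith
    · change max (sg (b j) * u (Sum.inr j)) 0 * sg (b j) * (max (sg (b j) * u (Sum.inr j)) 0 * sg (b j)) ≤ _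
      have h3 := sg_sq (b j)
      refine le_of_eq ?_
      calc max (sg (b j) * u (Sum.inr j)) 0 * sg (b j) * (max (sg (b j) * u (Sum.inr j)) 0 * sg (b j)) =
          max (sg (b j) * u (Sum.inr j)) 0 ^ 2 * (sg (b j) * sg (b j)) := by ring
        _ = _ := by rw [h3, mul_one]
  refine ⟨(√S)⁻¹ • X, ⟨?_, fun i => ⟨?_, ?_⟩, fun j => ?_⟩, ?_⟩
  · rw [norm_smul, norm_inv, Real.norm_of_nonneg (Real.sqrt_nonneg _)]
    have h3 : ‖X‖ ≤ √S := Real.le_sqrt_of_sq_le h2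
    rw [inv_mul_eq_div]
    exact div_le_one_of_le₀ h3 (Real.sqrt_nonneg _)
  · rw [inner_pr_smul, hX, real_inner_smul_left]
    exact mul_nonneg (inv_nonneg.2 (Real.sqrt_nonneg _)) (mul_nonneg (hp0 i) (hp i).2.1)
  · rw [inner_pr_smul, hX, real_inner_smul_left]
    have := mul_nonneg (inv_nonneg.2 (Real.sqrt_nonneg S)) (mul_nonneg (hp0 i) (neg_nonneg.2 (hp i).2.2))
    nlinarith
  · rw [PiLp.smul_apply, smul_eq_mul]
    have h3 := sg_sq (b j)
    have h4 : 0 ≤ (√S)⁻¹ * max (sg (b j) * u (Sum.inr j)) 0 :=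
      mul_nonneg (inv_nonneg.2 (Real.sqrt_nonneg S)) (le_max_right _ _)
    change 0 ≤ sg (b j) * ((√S)⁻¹ * (max (sg (b j) * u (Sum.inr j)) 0 * sg (b j)))
    calc (0 : ℝ) ≤ (√S)⁻¹ * max (sg (b j) * u (Sum.inr j)) 0 := h4
      _ = (√S)⁻¹ * max (sg (b j) * u (Sum.inr j)) 0 * (sg (b j) * sg (b j)) := by rw [h3, mul_one]
      _ = _ := by ring
  · rw [real_inner_smul_left, h1]
    by_cases h3 : S = 0
    · rw [h3]
      simp
    · have h4 : √S ≠ 0 := (Real.sqrt_pos.2 (lt_of_le_of_ne hS0 (Ne.symm h3))).ne'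
      rw [inv_mul_eq_div, div_eq_iff h4, Real.mul_self_sqrt hS0]

theorem cell_width {θ : ℝ} (h0 : 0 < θ) (h1 : θ ≤ Real.pi / 2) (b : Fin r → Bool) (a : I → ℝ) {u : VV I r}
    (hu : ‖u‖ = 1) : ∃ x ∈ cell θ b a, ∃ y ∈ cell θ b a, Real.sin θ ≤ ⟪x, u⟫ - ⟪y, u⟫ := by
  choose p hp q hq hp0 hq0 hpq using fun i => sec_attain h0 h1 (a i) (pr u i)
  obtain ⟨x, hx, hxu⟩ := exists_pt (b := b) p hp hp0
  have hneg : ∀ i, pr (-u) i = -pr u i := by
    intro i
    ext c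
    fin_cases c
    · rfl
    · rfl
  obtain ⟨y, hy, hyu⟩ := exists_pt (b := b) (u := -u) q hq (fun i => by rw [hneg, inner_neg_right]; linarith [hq0 i])
  refine ⟨x, hx, y, hy, ?_⟩
  have hyu' : -⟪y, u⟫ = √(∑ i, ⟪q i, pr u i⟫ ^ 2 + ∑ j : Fin r, max (-(sg (b j) * u (Sum.inr j))) 0 ^ 2) := by
    rw [← inner_neg_right, hyu]
    congr 1
    congr 1
    · refine Finset.sum_congr rfl fun i _ => ?_
      rw [hneg, inner_neg_right]
      ring
    · refine Finset.sum_congr rfl fun j _ => ?_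
      change max (sg (b j) * -u (Sum.inr j)) 0 ^ 2 = _
      rw [mul_neg]
  have hsin0 : 0 ≤ Real.sin θ := Real.sin_nonneg_of_nonneg_of_le_pi h0.le (by linarith [Real.pi_pos])
  have hsin1 : Real.sin θ ≤ 1 := Real.sin_le_one θ
  -- a vector form: put the numbers into Euclidean spaces
  let A : EuclideanSpace ℝ (I ⊕ Fin r) := WithLp.toLp 2 fun s => match s with
    | Sum.inl i => ⟪p i, pr u i⟫
    | Sum.inr j => max (sg (b j) * u (Sum.inr j)) 0
  let B : EuclideanSpace ℝ (I ⊕ Fin r) := WithLp.toLp 2 fun s => match s with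
    | Sum.inl i => -⟪q i, pr u i⟫
    | Sum.inr j => max (-(sg (b j) * u (Sum.inr j))) 0
  have hA : ‖A‖ = √(∑ i, ⟪p i, pr u i⟫ ^ 2 + ∑ j : Fin r, max (sg (b j) * u (Sum.inr j)) 0 ^ 2) := by
    rw [EuclideanSpace.norm_eq, Fintype.sum_sum_type]
    congr 1
    congr 1
    · refine Finset.sum_congr rfl fun i _ => ?_
      rw [Real.norm_eq_abs, sq_abs]
    · refine Finset.sum_congr rfl fun j _ => ?_
      rw [Real.norm_eq_abs, sq_abs]
  have hB : ‖B‖ = √(∑ i, ⟪q i, pr u i⟫ ^ 2 + ∑ j : Fin r, max (-(sg (b j) * u (Sum.inr j))) 0 ^ 2) := by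
    rw [EuclideanSpace.norm_eq, Fintype.sum_sum_type]
    congr 1
    congr 1
    · refine Finset.sum_congr rfl fun i _ => ?_
      rw [Real.norm_eq_abs, sq_abs]
      exact neg_sq _
    · refine Finset.sum_congr rfl fun j _ => ?_
      rw [Real.norm_eq_abs, sq_abs]
  have hAB : Real.sin θ ≤ ‖A + B‖ := by
    have h2 : Real.sin θ ^ 2 ≤ ‖A + B‖ ^ 2 := by
      rw [EuclideanSpace.norm_sq_eq, Fintype.sum_sum_type]
      have h3 : ‖u‖ ^ 2 = ∑ i, ‖pr u i‖ ^ 2 + ∑ j : Fin r, u (Sum.inr j) ^ 2 := by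
        rw [← real_inner_self_eq_norm_sq, inner_VV]
        congr 1
        · exact Finset.sum_congr rfl fun i _ => real_inner_self_eq_norm_sq _
        · exact Finset.sum_congr rfl fun j _ => (sq _).symm
      have h4 : Real.sin θ ^ 2 = ∑ i, Real.sin θ ^ 2 * ‖pr u i‖ ^ 2 + ∑ j : Fin r, Real.sin θ ^ 2 * u (Sum.inr j) ^ 2 := by
        rw [← Finset.mul_sum, ← Finset.mul_sum, ← mul_add, ← h3, hu]
        ring
      rw [h4]
      refine add_le_add (Finset.sum_le_sum fun i _ => ?_) (Finset.sum_le_sum fun j _ => ?_)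
      · rw [Real.norm_eq_abs, sq_abs, ← mul_pow]
        have h5 := hpq i
        change (Real.sin θ * ‖pr u i‖) ^ 2 ≤ (⟪p i, pr u i⟫ + -⟪q i, pr u i⟫) ^ 2
        refine pow_le_pow_left₀ (mul_nonneg hsin0 (norm_nonneg _)) (by linarith) 2
      · rw [Real.norm_eq_abs, sq_abs]
        change Real.sin θ ^ 2 * u (Sum.inr j) ^ 2 ≤
          (max (sg (b j) * u (Sum.inr j)) 0 + max (-(sg (b j) * u (Sum.inr j))) 0) ^ 2
        have h6 : Real.sin θ ^ 2 ≤ 1 := pow_le_one₀ hsin0 hsin1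
        have h7 : (max (sg (b j) * u (Sum.inr j)) 0 + max (-(sg (b j) * u (Sum.inr j))) 0) ^ 2 = u (Sum.inr j) ^ 2 := by
          have h9 := sg_sq (b j)
          have h10 : (sg (b j) * u (Sum.inr j)) ^ 2 = u (Sum.inr j) ^ 2 := by
            rw [mul_pow, sq (sg (b j)), h9, one_mul]
          rcases le_total 0 (sg (b j) * u (Sum.inr j)) with h | h
          · rw [max_eq_left h, max_eq_right (by linarith), add_zero, h10]
          · rw [max_eq_right h, max_eq_left (by linarith), zero_add, neg_sq, h10]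
        have h8 : 0 ≤ u (Sum.inr j) ^ 2 := sq_nonneg _
        rw [h7]
        nlinarith
    exact (sq_le_sq₀ hsin0 (norm_nonneg _)).1 h2
  have h9 := norm_add_le A B
  rw [hA, hB] at h9
  rw [hxu]
  linarith

lemma exists_move {V : Type*} [NormedAddCommGroup V] [InnerProductSpace ℝ V] {A : Set V} {x : V} (hx : x ∈ interior A)
    (v : V) : ∃ ε : ℝ, 0 < ε ∧ x + ε • v ∈ A := by
  have h1 : Filter.Tendsto (fun ε : ℝ => x + ε • v) (nhds 0) (nhds x) := by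
    have h2 : Continuous fun ε : ℝ => x + ε • v := by fun_prop
    have h3 := h2.tendsto 0
    simpa using h3
  have h4 : ∀ᶠ ε in nhds (0 : ℝ), x + ε • v ∈ A := h1 (mem_interior_iff_mem_nhds.1 hx)
  have h5 : ∀ᶠ ε in nhdsWithin (0 : ℝ) (Set.Ioi 0), x + ε • v ∈ A := h4.filter_mono nhdsWithin_le_nhds
  obtain ⟨ε, h6, h7⟩ := (h5.and self_mem_nhdsWithin).exists
  exact ⟨ε, h7, h6⟩

open Classical in
lemma exists_lift (i : I) (y : E 2) : ∃ v : VV I r, pr v i = y := by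
  refine ⟨WithLp.toLp 2 fun s => match s with
    | Sum.inl (j, c) => if j = i then y c else 0
    | Sum.inr _ => 0, ?_⟩
  ext c
  fin_cases c
  · change (if i = i then y 0 else 0) = y 0
    rw [if_pos rfl]
  · change (if i = i then y 1 else 0) = y 1
    rw [if_pos rfl]

lemma cell_strict {θ : ℝ} {b : Fin r → Bool} {a : I → ℝ} {x : VV I r} (hx : x ∈ interior (cell θ b a)) (i : I) :
    0 < ⟪pr x i, e (a i + Real.pi / 2)⟫ ∧ ⟪pr x i, e (a i + θ + Real.pi / 2)⟫ < 0 := by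
  constructor
  · obtain ⟨v, hv⟩ := exists_lift (r := r) i (-e (a i + Real.pi / 2))
    obtain ⟨ε, hε, h⟩ := exists_move hx v
    have h1 := (h.2.1 i).1
    rw [inner_pr_add, inner_pr_smul, hv, inner_neg_left, real_inner_self_eq_norm_sq, norm_e] at h1
    nlinarith
  · obtain ⟨v, hv⟩ := exists_lift (r := r) i (e (a i + θ + Real.pi / 2))
    obtain ⟨ε, hε, h⟩ := exists_move hx v
    have h1 := (h.2.1 i).2
    rw [inner_pr_add, inner_pr_smul, hv, real_inner_self_eq_norm_sq, norm_e] at h1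
    nlinarith

open Classical in
lemma cell_strict' {θ : ℝ} {b : Fin r → Bool} {a : I → ℝ} {x : VV I r} (hx : x ∈ interior (cell θ b a)) (j : Fin r) :
    0 < sg (b j) * x (Sum.inr j) := by
  let v : VV I r := WithLp.toLp 2 fun s => match s with
    | Sum.inl _ => 0
    | Sum.inr l => if l = j then -sg (b j) else 0
  have hv : v (Sum.inr j) = -sg (b j) := by
    change (if j = j then -sg (b j) else 0) = _
    rw [if_pos rfl]
  obtain ⟨ε, hε, h⟩ := exists_move hx v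
  have h1 := h.2.2 j
  rw [PiLp.add_apply, PiLp.smul_apply, smul_eq_mul, hv] at h1
  have h2 := sg_sq (b j)
  nlinarith

/-- the open sectors of angle `θ` at `a` and at `b` are disjoint -/
def Dj (θ a b : ℝ) : Prop := ∀ y : E 2, ¬ ((0 < ⟪y, e (a + Real.pi / 2)⟫ ∧ ⟪y, e (a + θ + Real.pi / 2)⟫ < 0) ∧
  0 < ⟪y, e (b + Real.pi / 2)⟫ ∧ ⟪y, e (b + θ + Real.pi / 2)⟫ < 0)

/-- products of sectors, one for each word, give a packing -/
theorem pack_words {Ω : Type} [Fintype Ω] {θ : ℝ} (h0 : 0 < θ) (h1 : θ ≤ Real.pi / 2) (a : Ω → I → ℝ) (r : ℕ)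
    (ha : ∀ k l, k ≠ l → ∃ i, Dj θ (a k i) (a l i)) {d : ℕ} (hd : d = 2 * Fintype.card I + r) {t : ℝ}
    (ht : t ≤ Real.sin θ) : Pack d t (Fintype.card Ω * 2 ^ r) := by
  have hcard : Fintype.card (I × Fin 2 ⊕ Fin r) = d := by
    rw [Fintype.card_sum, Fintype.card_prod, Fintype.card_fin, Fintype.card_fin, hd]
    ring
  have hΩ : Fintype.card Ω * 2 ^ r = Fintype.card (Ω × (Fin r → Bool)) := by
    rw [Fintype.card_prod, Fintype.card_fun, Fintype.card_bool, Fintype.card_fin]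
  rw [hΩ]
  let f : VV I r ≃ₗᵢ[ℝ] E d := LinearIsometryEquiv.piLpCongrLeft 2 ℝ ℝ (Fintype.equivFinOfCardEq hcard)
  refine pack_of_isom f (fun k : Ω × (Fin r → Bool) => cell θ k.2 (a k.1)) (fun k => convex_cell θ _ _)
    (fun k => cell_sub θ _ _) ?_ ?_
  · rintro ⟨k, b⟩ ⟨l, c⟩ hkl
    rw [Set.disjoint_left]
    intro x hxk hxl
    by_cases h : k = l
    · subst h
      have hbc : b ≠ c := fun h => hkl (by rw [h])
      obtain ⟨j, hj⟩ := Function.ne_iff.1 hbc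
      have h2 := cell_strict' hxk j
      have h3 := cell_strict' hxl j
      change 0 < sg (b j) * x (Sum.inr j) at h2
      change 0 < sg (c j) * x (Sum.inr j) at h3
      rw [sg_ne hj] at h3
      linarith
    · obtain ⟨i, hi⟩ := ha k l h
      exact hi _ ⟨cell_strict hxk i, cell_strict hxl i⟩
  · rintro ⟨k, b⟩ u hu
    obtain ⟨x, hx, y, hy, h⟩ := cell_width h0 h1 b (a k) hu
    exact ⟨x, hx, y, hy, ht.trans h⟩

end

end PCG
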