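import Mathlib

/-!
# Codes over odd cycles (after Bohman and Holzman)

For every `k` there are `2 ^ n + 1` words of length `n = 2 ^ k` over the integers modulo `2 * k + 3` such that any two
of them differ by one modulo `2 * k + 3` in some place.
-/

set_option autoImplicit false

namespace PCG

/-- the words `u` and `v` have neighbouring letters in some place -/
def Nb {ι : Type} (u v : ι → ℤ) : Prop := ∃ i, u i - v i = 1 ∨ u i - v i = -1

lemma Nb.symm {ι : Type} {u v : ι → ℤ} (h : Nb u v) : Nb v u := by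
  obtain ⟨i, h⟩ := h
  exact ⟨i, by omega⟩

/-- the two halves of the code, with the invariants of the recursion -/
structure Half (k : ℕ) (ι A B : Type) (x : A → ι → ℤ) (y : B → ι → ℤ) : Prop where
  xx : ∀ a a', a ≠ a' → Nb (x a) (x a')
  yy : ∀ b b', b ≠ b' → Nb (y b) (y b')
  xy : ∀ a b, Nb (x a) (y b)
  x1 : ∀ a, ∃ i, x a i = 1
  y1 : ∀ b, ∃ i, y b i = 2 * k + 2
  dd : ∀ a b, ∃ i, y b i - x a i = 1 ∨ y b i - x a i = 3

section
variable {ι A B : Type}

/-- the recursion, first half -/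
def nx (x : A → ι → ℤ) (y : B → ι → ℤ) : A × B ⊕ A × A → ι ⊕ ι → ℤ
  | Sum.inl (a, _), Sum.inl i => x a i
  | Sum.inl (_, b), Sum.inr i => y b i
  | Sum.inr (a, _), Sum.inl i => x a i + 2
  | Sum.inr (_, a), Sum.inr i => x a i

/-- the recursion, second half -/
def ny (x : A → ι → ℤ) (y : B → ι → ℤ) : B × A ⊕ B × B → ι ⊕ ι → ℤ
  | Sum.inl (b, _), Sum.inl i => y b i + 2
  | Sum.inl (_, a), Sum.inr i => x a i + 2
  | Sum.inr (b, _), Sum.inl i => y b i
  | Sum.inr (_, b), Sum.inr i => y b i + 2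

theorem Half.step {k : ℕ} {x : A → ι → ℤ} {y : B → ι → ℤ} (h : Half k ι A B x y) :
    Half (k + 1) (ι ⊕ ι) (A × B ⊕ A × A) (B × A ⊕ B × B) (nx x y) (ny x y) where
  xx := by
    rintro (⟨a, b⟩ | ⟨a, b⟩) (⟨a', b'⟩ | ⟨a', b'⟩) hne
    · by_cases e : a = a'
      · subst e
        have : b ≠ b' := fun e => hne (by rw [e])
        obtain ⟨i, hi⟩ := h.yy b b' this
        exact ⟨Sum.inr i, hi⟩
      · obtain ⟨i, hi⟩ := h.xx a a' e
        exact ⟨Sum.inl i, hi⟩
    · obtain ⟨i, hi⟩ := (h.xy b' b).symm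
      exact ⟨Sum.inr i, hi⟩
    · obtain ⟨i, hi⟩ := h.xy b b'
      exact ⟨Sum.inr i, hi⟩
    · by_cases e : a = a'
      · subst e
        have : b ≠ b' := fun e => hne (by rw [e])
        obtain ⟨i, hi⟩ := h.xx b b' this
        exact ⟨Sum.inr i, hi⟩
      · obtain ⟨i, hi⟩ := h.xx a a' e
        refine ⟨Sum.inl i, ?_⟩
        change x a i + 2 - (x a' i + 2) = 1 ∨ x a i + 2 - (x a' i + 2) = -1
        omega
  yy := by
    rintro (⟨a, b⟩ | ⟨a, b⟩) (⟨a', b'⟩ | ⟨a', b'⟩) hne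
    · by_cases e : a = a'
      · subst e
        have : b ≠ b' := fun e => hne (by rw [e])
        obtain ⟨i, hi⟩ := h.xx b b' this
        refine ⟨Sum.inr i, ?_⟩
        change x b i + 2 - (x b' i + 2) = 1 ∨ x b i + 2 - (x b' i + 2) = -1
        omega
      · obtain ⟨i, hi⟩ := h.yy a a' e
        refine ⟨Sum.inl i, ?_⟩
        change y a i + 2 - (y a' i + 2) = 1 ∨ y a i + 2 - (y a' i + 2) = -1
        omega
    · obtain ⟨i, hi⟩ := h.xy b b'
      refine ⟨Sum.inr i, ?_⟩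
      change x b i + 2 - (y b' i + 2) = 1 ∨ x b i + 2 - (y b' i + 2) = -1
      omega
    · obtain ⟨i, hi⟩ := h.xy b' b
      refine ⟨Sum.inr i, ?_⟩
      change y b i + 2 - (x b' i + 2) = 1 ∨ y b i + 2 - (x b' i + 2) = -1
      omega
    · by_cases e : a = a'
      · subst e
        have : b ≠ b' := fun e => hne (by rw [e])
        obtain ⟨i, hi⟩ := h.yy b b' this
        refine ⟨Sum.inr i, ?_⟩
        change y b i + 2 - (y b' i + 2) = 1 ∨ y b i + 2 - (y b' i + 2) = -1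
        omega
      · obtain ⟨i, hi⟩ := h.yy a a' e
        exact ⟨Sum.inl i, hi⟩
  xy := by
    rintro (⟨a, b⟩ | ⟨a, b⟩) (⟨a', b'⟩ | ⟨a', b'⟩)
    · obtain ⟨i, hi⟩ := h.dd b' b
      refine ⟨Sum.inr i, ?_⟩
      change y b i - (x b' i + 2) = 1 ∨ y b i - (x b' i + 2) = -1
      omega
    · obtain ⟨i, hi⟩ := h.xy a a'
      exact ⟨Sum.inl i, hi⟩
    · obtain ⟨i, hi⟩ := h.xy a a'
      refine ⟨Sum.inl i, ?_⟩
      change x a i + 2 - (y a' i + 2) = 1 ∨ x a i + 2 - (y a' i + 2) = -1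
      omega
    · obtain ⟨i, hi⟩ := h.dd a a'
      refine ⟨Sum.inl i, ?_⟩
      change x a i + 2 - y a' i = 1 ∨ x a i + 2 - y a' i = -1
      omega
  x1 := by
    rintro (⟨a, b⟩ | ⟨a, b⟩)
    · obtain ⟨i, hi⟩ := h.x1 a
      exact ⟨Sum.inl i, hi⟩
    · obtain ⟨i, hi⟩ := h.x1 b
      exact ⟨Sum.inr i, hi⟩
  y1 := by
    rintro (⟨a, b⟩ | ⟨a, b⟩)
    · obtain ⟨i, hi⟩ := h.y1 a
      refine ⟨Sum.inl i, ?_⟩
      change y a i + 2 = _
      push_cast
      omega
    · obtain ⟨i, hi⟩ := h.y1 b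
      refine ⟨Sum.inr i, ?_⟩
      change y b i + 2 = _
      push_cast
      omega
  dd := by
    rintro (⟨a, b⟩ | ⟨a, b⟩) (⟨a', b'⟩ | ⟨a', b'⟩)
    · obtain ⟨i, hi⟩ := h.xy a a'
      refine ⟨Sum.inl i, ?_⟩
      change y a' i + 2 - x a i = 1 ∨ y a' i + 2 - x a i = 3
      omega
    · obtain ⟨i, hi⟩ := h.dd a a'
      exact ⟨Sum.inl i, hi⟩
    · obtain ⟨i, hi⟩ := h.dd a a'
      refine ⟨Sum.inl i, ?_⟩
      change y a' i + 2 - (x a i + 2) = 1 ∨ y a' i + 2 - (x a i + 2) = 3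
      omega
    · obtain ⟨i, hi⟩ := h.xy b b'
      refine ⟨Sum.inr i, ?_⟩
      change y b' i + 2 - x b i = 1 ∨ y b' i + 2 - x b i = 3
      omega

end

theorem exists_half (k : ℕ) : ∃ (ι A B : Type) (_ : Fintype ι) (_ : Fintype A) (_ : Fintype B)
    (x : A → ι → ℤ) (y : B → ι → ℤ), Half k ι A B x y ∧ Fintype.card ι = 2 ^ k ∧
      2 * Fintype.card A = 2 ^ 2 ^ k ∧ 2 * Fintype.card B = 2 ^ 2 ^ k := by
  induction k with
  | zero =>
    refine ⟨Unit, Unit, Unit, inferInstance, inferInstance, inferInstance, fun _ _ => 1, fun _ _ => 2,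
      ⟨fun a a' h => (h (Subsingleton.elim _ _)).elim, fun a a' h => (h (Subsingleton.elim _ _)).elim,
        fun _ _ => ⟨(), by norm_num⟩, fun _ => ⟨(), rfl⟩, fun _ => ⟨(), by norm_num⟩, fun _ _ => ⟨(), by norm_num⟩⟩,
      by simp, by simp, by simp⟩
  | succ k ih =>
    obtain ⟨ι, A, B, _, _, _, x, y, h, h1, h2, h3⟩ := ih
    have hab : Fintype.card A = Fintype.card B := by omega
    have h4 : (2 : ℕ) ^ 2 ^ (k + 1) = (2 * Fintype.card A) * (2 * Fintype.card A) := by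
      rw [h2, ← pow_add, pow_succ 2 k]
      congr 1
      ring
    refine ⟨ι ⊕ ι, A × B ⊕ A × A, B × A ⊕ B × B, inferInstance, inferInstance, inferInstance, nx x y, ny x y, h.step,
      ?_, ?_, ?_⟩
    · rw [Fintype.card_sum, h1]
      ring
    · rw [Fintype.card_sum, Fintype.card_prod, Fintype.card_prod, h4, ← hab]
      ring
    · rw [Fintype.card_sum, Fintype.card_prod, Fintype.card_prod, h4, ← hab]
      ring

/-- the code: any two words differ by one modulo `2 * k + 3` in some place -/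
theorem exists_code (k : ℕ) : ∃ w : Fin (2 ^ 2 ^ k + 1) → Fin (2 ^ k) → ℤ, ∀ p q, p ≠ q →
    ∃ i, ((2 * k + 3 : ℕ) : ℤ) ∣ w p i - w q i - 1 ∨ ((2 * k + 3 : ℕ) : ℤ) ∣ w p i - w q i + 1 := by
  obtain ⟨ι, A, B, _, _, _, x, y, h, h1, h2, h3⟩ := exists_half k
  have hc : Fintype.card (Option (A ⊕ B)) = 2 ^ 2 ^ k + 1 := by
    rw [Fintype.card_option, Fintype.card_sum]
    omega
  let e1 : Fin (2 ^ 2 ^ k + 1) ≃ Option (A ⊕ B) := (Fintype.equivFinOfCardEq hc).symm
  let e2 : Fin (2 ^ k) ≃ ι := (Fintype.equivFinOfCardEq h1).symm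
  let W : Option (A ⊕ B) → ι → ℤ := fun o i => match o with
    | none => 0
    | some (Sum.inl a) => x a i
    | some (Sum.inr b) => y b i
  have key : ∀ p q, p ≠ q → ∃ i, ((2 * k + 3 : ℕ) : ℤ) ∣ W p i - W q i - 1 ∨
      ((2 * k + 3 : ℕ) : ℤ) ∣ W p i - W q i + 1 := by
    have hz : ∀ z : ℤ, z = 0 → ((2 * k + 3 : ℕ) : ℤ) ∣ z := fun z hz => hz ▸ dvd_zero _
    rintro (_ | a | b) (_ | a' | b') hne
    · exact (hne rfl).elim
    · obtain ⟨i, hi⟩ := h.x1 a'
      refine ⟨i, Or.inr (hz _ ?_)⟩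
      change (0 : ℤ) - x a' i + 1 = 0
      omega
    · obtain ⟨i, hi⟩ := h.y1 b'
      refine ⟨i, Or.inl ⟨-1, ?_⟩⟩
      change (0 : ℤ) - y b' i - 1 = _
      push_cast
      omega
    · obtain ⟨i, hi⟩ := h.x1 a
      refine ⟨i, Or.inl (hz _ ?_)⟩
      change x a i - (0 : ℤ) - 1 = 0
      omega
    · obtain ⟨i, hi⟩ := h.xx a a' fun e => hne (by rw [e])
      refine ⟨i, ?_⟩
      rcases hi with hi | hi
      · exact Or.inl (hz _ (by change x a i - x a' i - 1 = 0; omega))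
      · exact Or.inr (hz _ (by change x a i - x a' i + 1 = 0; omega))
    · obtain ⟨i, hi⟩ := h.xy a b'
      refine ⟨i, ?_⟩
      rcases hi with hi | hi
      · exact Or.inl (hz _ (by change x a i - y b' i - 1 = 0; omega))
      · exact Or.inr (hz _ (by change x a i - y b' i + 1 = 0; omega))
    · obtain ⟨i, hi⟩ := h.y1 b
      refine ⟨i, Or.inr ⟨1, ?_⟩⟩
      change y b i - (0 : ℤ) + 1 = _
      push_cast
      omega
    · obtain ⟨i, hi⟩ := (h.xy a' b).symm
      refine ⟨i, ?_⟩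
      rcases hi with hi | hi
      · exact Or.inl (hz _ (by change y b i - x a' i - 1 = 0; omega))
      · exact Or.inr (hz _ (by change y b i - x a' i + 1 = 0; omega))
    · obtain ⟨i, hi⟩ := h.yy b b' fun e => hne (by rw [e])
      refine ⟨i, ?_⟩
      rcases hi with hi | hi
      · exact Or.inl (hz _ (by change y b i - y b' i - 1 = 0; omega))
      · exact Or.inr (hz _ (by change y b i - y b' i + 1 = 0; omega))
  refine ⟨fun p i => W (e1 p) (e2 i), fun p q hpq => ?_⟩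
  obtain ⟨i, hi⟩ := key (e1 p) (e1 q) fun e => hpq (e1.injective e)
  exact ⟨e2.symm i, by simpa using hi⟩

end PCG
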