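import Pool.Agent.PCG.Lift

/-!
# The upper bound `(4 / t) ^ d`
-/

set_option autoImplicit false

open MeasureTheory Module Set Metric PCW
open scoped ENNReal Pointwise RealInnerProductSpace

namespace PCG

section
variable {V : Type*} [NormedAddCommGroup V] [InnerProductSpace ℝ V] [FiniteDimensional ℝ V]
  [MeasurableSpace V] [BorelSpace V]

/-- the volume of the difference body -/
theorem vol_sub {C : Set V} (hC : Convex ℝ C) (hcp : IsCompact C) (h0 : volume C ≠ 0) :
    volume (C - C) ≤ 4 ^ finrank ℝ V * volume C := by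
  have hm : MeasurableSet C := hcp.measurableSet
  have h1 : volume C ≠ ∞ := hcp.measure_lt_top.ne
  set c : ℝ≥0∞ := ENNReal.ofReal ((1 / 2) ^ finrank ℝ V) * volume C with hc
  have hsub : (1 / 2 : ℝ) • (C - C) ⊆ {x | c ≤ ov C C x} := by
    rintro x ⟨_, ⟨p, hp, q, hq, rfl⟩, rfl⟩
    show c ≤ ov C C ((1 / 2 : ℝ) • (p - q))
    rw [ov_eq hm hm]
    have hT : volume ((fun b => (1 / 2 : ℝ) • b + (1 / 2 : ℝ) • p) '' C) = c := by
      have e : (fun b : V => (1 / 2 : ℝ) • b + (1 / 2 : ℝ) • p) '' C =
          (fun y => y + (1 / 2 : ℝ) • p) '' ((1 / 2 : ℝ) • C) := by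
        rw [← image_smul, image_image]
      rw [e, image_add_right, measure_preimage_add_right, Measure.addHaar_smul, abs_of_nonneg (by positivity)]
    rw [← hT]
    refine measure_mono ?_
    rintro _ ⟨b, hb, rfl⟩
    constructor
    · exact hC hb hp (by norm_num) (by norm_num) (by norm_num)
    · have e : (1 / 2 : ℝ) • b + (1 / 2 : ℝ) • p - (1 / 2 : ℝ) • (p - q) = (1 / 2 : ℝ) • b + (1 / 2 : ℝ) • q := by
        module
      show (1 / 2 : ℝ) • b + (1 / 2 : ℝ) • p - (1 / 2 : ℝ) • (p - q) ∈ C
      rw [e]
      exact hC hb hq (by norm_num) (by norm_num) (by norm_num)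
  have h2 := mul_meas_ge_le_lintegral (μ := (volume : Measure V)) (measurable_ov hm hm) c
  rw [lintegral_ov hm hm] at h2
  have h3 : c * volume ((1 / 2 : ℝ) • (C - C)) ≤ volume C * volume C :=
    (mul_le_mul_right (measure_mono hsub) c).trans h2
  rw [hc, mul_right_comm] at h3
  have h4 := (ENNReal.mul_le_mul_iff_left h0 h1).1 h3
  rw [Measure.addHaar_smul, abs_of_nonneg (by positivity), ← mul_assoc, ← ENNReal.ofReal_mul (by positivity),
    ← mul_pow] at h4
  have e : (4 : ℝ≥0∞) ^ finrank ℝ V * ENNReal.ofReal ((1 / 2 * (1 / 2)) ^ finrank ℝ V) = 1 := by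
    have e1 : (4 : ℝ≥0∞) ^ finrank ℝ V = ENNReal.ofReal (4 ^ finrank ℝ V) := by
      rw [ENNReal.ofReal_pow (by norm_num)]
      norm_num
    rw [e1, ← ENNReal.ofReal_mul (by positivity), ← mul_pow]
    norm_num
  calc volume (C - C) = (4 ^ finrank ℝ V * ENNReal.ofReal ((1 / 2 * (1 / 2)) ^ finrank ℝ V)) * volume (C - C) := by
        rw [e, one_mul]
    _ = 4 ^ finrank ℝ V * (ENNReal.ofReal ((1 / 2 * (1 / 2)) ^ finrank ℝ V) * volume (C - C)) := by ring
    _ ≤ _ := by gcongr

end

section
variable {d : ℕ}

lemma ball_sub {C : Set (E d)} (hC : Convex ℝ C) (hne : C.Nonempty) (hCb : C ⊆ closedBall 0 1) {t : ℝ}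
    (hw : Wide C t) : ball (0 : E d) t ⊆ closure C - closure C := by
  have hcp : IsCompact (closure C) :=
    (isCompact_closedBall (0 : E d) 1).of_isClosed_subset isClosed_closure
      (closure_minimal hCb isClosed_closedBall)
  intro v hv
  by_contra hcon
  have hSc : IsClosed (closure C - closure C) := by
    rw [sub_eq_add_neg]
    exact (hcp.add hcp.neg).isClosed
  have hSo : Convex ℝ (closure C - closure C) := hC.closure.sub hC.closure
  obtain ⟨f, a, hf1, hf2⟩ := geometric_hahn_banach_closed_point hSo hSc hcon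
  set Y : E d := (InnerProductSpace.toDual ℝ (E d)).symm f with hY
  have hYf : ∀ w, ⟪Y, w⟫ = f w := fun w => InnerProductSpace.toDual_symm_apply
  obtain ⟨x, hx, y, hy, h1⟩ := wid' hne hCb hw Y
  have h2 := hf1 (x - y) ⟨x, hx, y, hy, rfl⟩
  rw [← hYf] at h2 hf2
  have h3 : ⟪Y, x - y⟫ = ⟪x, Y⟫ - ⟪y, Y⟫ := by
    rw [inner_sub_right, real_inner_comm, real_inner_comm y]
  have h4 : ⟪Y, v⟫ ≤ ‖Y‖ * ‖v‖ := real_inner_le_norm _ _
  have h5 : ‖v‖ < t := mem_ball_zero_iff.1 hv
  have h6 := norm_nonneg Y
  nlinarith

lemma null_inter' {C C' : Set (E d)} (hC : Convex ℝ C) (hC' : Convex ℝ C')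
    (hd : Disjoint (interior C) (interior C')) : volume (C ∩ C') = 0 := by
  have hint : interior (C ∩ C') = ∅ := by
    rw [interior_inter]
    exact Set.disjoint_iff_inter_eq_empty.1 hd
  have h1 : C ∩ C' ⊆ frontier (C ∩ C') := by
    intro x hx
    have h2 := subset_closure hx
    rw [closure_eq_interior_union_frontier, hint, Set.empty_union] at h2
    exact h2
  exact measure_mono_null h1 ((hC.inter hC').addHaar_frontier volume)

/-- **the upper bound for all widths** -/
theorem four {t : ℝ} (hd : 1 ≤ d) (ht : 0 < t) {m : ℕ} (hP : Pack d t m) : (m : ℝ) ≤ (4 / t) ^ d := by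
  obtain ⟨C, hC, hCb, hdis, hw⟩ := hP
  have hne : ∀ i, (C i).Nonempty := by
    intro i
    by_contra hcon
    rw [Set.not_nonempty_iff_eq_empty] at hcon
    have h2 := hw i (EuclideanSpace.single (⟨0, hd⟩ : Fin d) 1) (by simp)
    rw [hcon] at h2
    unfold wd at h2
    rw [Set.image_empty] at h2
    norm_num at h2
    linarith
  have hv0 : volume (ball (0 : E d) 1) ≠ 0 := (measure_ball_pos _ _ one_pos).ne'
  have hv1 : volume (ball (0 : E d) 1) ≠ ∞ := measure_ball_lt_top.ne
  have key : ∀ i, ENNReal.ofReal (t ^ d) * volume (ball (0 : E d) 1) ≤ 4 ^ d * volume (C i) := by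
    intro i
    have hcp : IsCompact (closure (C i)) :=
      (isCompact_closedBall (0 : E d) 1).of_isClosed_subset isClosed_closure
        (closure_minimal (hCb i) isClosed_closedBall)
    have h1 := measure_mono (μ := (volume : Measure (E d))) (ball_sub (hC i) (hne i) (hCb i) (hw i))
    have h2 : volume (ball (0 : E d) t) = ENNReal.ofReal (t ^ d) * volume (ball (0 : E d) 1) := by
      rw [Measure.addHaar_ball_of_pos _ _ ht, finrank_euclideanSpace_fin]
    have h0 : volume (closure (C i)) ≠ 0 := by
      intro h0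
      -- the difference body is then null
      have hpos : 0 < volume (ball (0 : E d) t) := measure_ball_pos _ _ ht
      have hint : interior (closure (C i)) = ∅ := by
        by_contra hne'
        have h3 := isOpen_interior.measure_pos volume (Set.nonempty_iff_ne_empty.2 hne')
        exact (h3.trans_le (measure_mono interior_subset)).ne' h0
      have hspan : affineSpan ℝ (closure (C i)) ≠ ⊤ := by
        intro h3
        have := (hC i).closure.interior_nonempty_iff_affineSpan_eq_top.2 h3
        rw [hint] at this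
        exact Set.not_nonempty_empty this
      have hsub : closure (C i) - closure (C i) ⊆ ((affineSpan ℝ (closure (C i))).direction : Set (E d)) := by
        rintro _ ⟨x, hx, y, hy, rfl⟩
        exact AffineSubspace.vsub_mem_direction (subset_affineSpan ℝ _ hx) (subset_affineSpan ℝ _ hy)
      have hdir : (affineSpan ℝ (closure (C i))).direction ≠ ⊤ := by
        intro h3
        exact hspan ((AffineSubspace.direction_eq_top_iff_of_nonempty
          ((affineSpan_nonempty ℝ).2 (hne i).closure)).1 h3)
      have h4 : volume (((affineSpan ℝ (closure (C i))).direction : Submodule ℝ (E d)) : Set (E d)) = 0 :=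
        Measure.addHaar_submodule _ _ hdir
      have h5 := measure_mono_null hsub h4
      have h6 := h1.trans h5.le
      exact hpos.ne' (le_antisymm h6 bot_le)
    have h3 := vol_sub (hC i).closure hcp h0
    rw [finrank_euclideanSpace_fin] at h3
    have h4 : volume (closure (C i)) = volume (C i) := by
      refine le_antisymm ?_ (measure_mono subset_closure)
      have h5 : closure (C i) ⊆ C i ∪ frontier (C i) := by
        rw [closure_eq_interior_union_frontier]
        exact Set.union_subset_union_left _ interior_subset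
      calc volume (closure (C i)) ≤ _ := measure_mono h5
        _ ≤ volume (C i) + volume (frontier (C i)) := measure_union_le _ _
        _ = _ := by rw [(hC i).addHaar_frontier volume, add_zero]
    rw [← h2, ← h4]
    exact h1.trans h3
  have hsum : ∑ i, volume (C i) ≤ volume (ball (0 : E d) 1) := by
    have hpd : Pairwise (Function.onFun (AEDisjoint volume) C) := fun i j hij =>
      null_inter' (hC i) (hC j) (hdis i j hij)
    have h1 := measure_iUnion₀ hpd fun i => (hC i).nullMeasurableSet volume
    rw [tsum_fintype] at h1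
    rw [← h1, ← Measure.addHaar_unitClosedBall_eq_addHaar_unitBall]
    exact measure_mono (Set.iUnion_subset hCb)
  have h1 : ENNReal.ofReal (m * t ^ d) * volume (ball (0 : E d) 1) ≤ ENNReal.ofReal (4 ^ d) * volume (ball (0 : E d) 1) := by
    have e1 : ENNReal.ofReal (4 ^ d) = 4 ^ d := by
      rw [ENNReal.ofReal_pow (by norm_num)]
      norm_num
    rw [ENNReal.ofReal_mul (by positivity), ENNReal.ofReal_natCast, e1, mul_assoc]
    calc (m : ℝ≥0∞) * (ENNReal.ofReal (t ^ d) * volume (ball (0 : E d) 1))
        = ∑ _i : Fin m, ENNReal.ofReal (t ^ d) * volume (ball (0 : E d) 1) := by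
          rw [Finset.sum_const, Finset.card_univ, Fintype.card_fin, nsmul_eq_mul]
      _ ≤ ∑ i, 4 ^ d * volume (C i) := Finset.sum_le_sum fun i _ => key i
      _ = 4 ^ d * ∑ i, volume (C i) := by rw [Finset.mul_sum]
      _ ≤ _ := by gcongr
  have h2 := (ENNReal.mul_le_mul_iff_left hv0 hv1).1 h1
  rw [ENNReal.ofReal_le_ofReal_iff (by positivity)] at h2
  rw [div_pow, le_div_iff₀ (by positivity)]
  exact h2

end

end PCG
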