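import Pool.Agent.PCG.Cell

/-!
# The greedy packing of balls
-/

set_option autoImplicit false

open MeasureTheory Metric PCW
open scoped RealInnerProductSpace NNReal ENNReal

namespace PCG

theorem greedy {d : ℕ} {t : ℝ} (ht : 0 < t) (ht1 : t ≤ 1) : ∃ m, Pack d t m ∧ (1 / t - 1 / 2) ^ d ≤ (m : ℝ) := by
  classical
  rcases Nat.eq_zero_or_pos d with hd0 | hdpos
  · subst hd0
    refine ⟨1, ?_, by norm_num⟩
    refine ⟨fun _ => {0}, fun _ => convex_singleton _, fun _ => by simp, fun i j h => (h (Subsingleton.elim _ _)).elim,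
      fun _ u hu => ?_⟩
    exfalso
    rw [Subsingleton.elim u 0, norm_zero] at hu
    exact zero_ne_one hu
  have hnt : Nontrivial (E d) := by
    refine ⟨⟨0, EuclideanSpace.single (⟨0, hdpos⟩ : Fin d) 1, fun h => ?_⟩⟩
    have := congrArg norm h
    simp at this
  set R : ℝ := 1 - t / 2 with hR
  have hR0 : 0 ≤ R := by rw [hR]; linarith
  let ε : ℝ≥0 := ⟨t / 2, by linarith⟩
  have hε0 : ε ≠ 0 := by
    intro h
    have : (ε : ℝ) = 0 := by rw [h]; rfl
    change t / 2 = 0 at this
    linarith
  have h2ε : ((2 * ε : ℝ≥0) : ℝ) = t := by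
    rw [NNReal.coe_mul]
    change 2 * (t / 2) = t
    ring
  set A : Set (E d) := closedBall 0 R with hA
  obtain ⟨N, hN, hNf, hNc⟩ := exists_finite_isCover_of_isCompact hε0 (isCompact_closedBall (0 : E d) R)
  have htop : packingNumber (2 * ε) A ≠ ⊤ := by
    refine ne_top_of_le_ne_top ?_ ((packingNumber_two_mul_le_externalCoveringNumber ε A).trans
      hNc.externalCoveringNumber_le_encard)
    exact Set.encard_ne_top_iff.2 hNf
  set S : Set (E d) := maximalSeparatedSet (2 * ε) A with hS
  have hSA : S ⊆ A := maximalSeparatedSet_subset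
  have hSs : IsSeparated (2 * ε : ℝ≥0) S := isSeparated_maximalSeparatedSet
  have hSc : IsCover (2 * ε) A S := isCover_maximalSeparatedSet htop
  have hSf : S.Finite := by
    rw [← Set.encard_ne_top_iff, hS, encard_maximalSeparatedSet htop]
    exact htop
  let T : Finset (E d) := hSf.toFinset
  have hT : ∀ x, x ∈ T ↔ x ∈ S := fun x => hSf.mem_toFinset
  let f : Fin T.card ≃ T := T.equivFin.symm
  have hsub : ∀ k, closedBall ((f k : E d)) (t / 2) ⊆ closedBall 0 1 := by
    intro k x hx
    have h1 : ‖(f k : E d)‖ ≤ R := by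
      have := hSA ((hT _).1 (f k).2)
      rwa [hA, mem_closedBall_zero_iff] at this
    rw [mem_closedBall, dist_eq_norm] at hx
    rw [mem_closedBall_zero_iff]
    calc ‖x‖ = ‖(x - f k) + f k‖ := by rw [sub_add_cancel]
      _ ≤ ‖x - f k‖ + ‖(f k : E d)‖ := norm_add_le _ _
      _ ≤ t / 2 + R := add_le_add hx h1
      _ = 1 := by rw [hR]; ring
  refine ⟨T.card, ⟨fun k => closedBall (f k : E d) (t / 2), fun k => convex_closedBall _ _, hsub, fun k l hkl => ?_,
    fun k u hu => ?_⟩, ?_⟩
  · rw [interior_closedBall _ (by linarith), interior_closedBall _ (by linarith)]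
    apply ball_disjoint_ball
    have h1 : (f k : E d) ≠ f l := fun h => hkl (f.injective (Subtype.ext h))
    have h2 : ((2 * ε : ℝ≥0) : ℝ≥0∞) < edist (f k : E d) (f l) := hSs ((hT _).1 (f k).2) ((hT _).1 (f l).2) h1
    have h3 : t < dist (f k : E d) (f l) := by
      rw [edist_dist] at h2
      rw [← h2ε]
      have h4 : ENNReal.ofReal ((2 * ε : ℝ≥0) : ℝ) < ENNReal.ofReal (dist (f k : E d) (f l)) := by
        rwa [ENNReal.ofReal_coe_nnreal]
      exact (ENNReal.ofReal_lt_ofReal_iff_of_nonneg (NNReal.coe_nonneg _)).1 h4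
    linarith
  · have h1 : (f k : E d) + (t / 2) • u ∈ closedBall (f k : E d) (t / 2) := by
      rw [mem_closedBall, dist_eq_norm, add_sub_cancel_left, norm_smul, hu, mul_one, Real.norm_of_nonneg (by linarith)]
    have h2 : (f k : E d) - (t / 2) • u ∈ closedBall (f k : E d) (t / 2) := by
      rw [mem_closedBall, dist_eq_norm, sub_sub_cancel_left, norm_neg, norm_smul, hu, mul_one,
        Real.norm_of_nonneg (by linarith)]
    refine le_trans (le_of_eq ?_) (wd_ge_gen (hsub k) hu h1 h2)
    rw [inner_add_left, inner_sub_left, real_inner_smul_left, real_inner_self_eq_norm_sq, hu]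
    ring
  · have h1 : A ⊆ ⋃ x ∈ T, closedBall x t := by
      intro x hx
      obtain ⟨y, hy, hxy⟩ := hSc hx
      refine Set.mem_biUnion ((hT y).2 hy) ?_
      rw [mem_closedBall, dist_edist]
      rw [← h2ε]
      have : edist x y ≤ ((2 * ε : ℝ≥0) : ℝ≥0∞) := hxy
      exact ENNReal.toReal_le_coe_of_le_coe this
    have h2 : (volume : Measure (E d)) A ≤ ∑ x ∈ T, volume (closedBall x t) :=
      (measure_mono h1).trans (measure_biUnion_finset_le _ _)
    have h3 : ∀ x : E d, volume (closedBall x t) = ENNReal.ofReal (t ^ d) * volume (ball (0 : E d) 1) := by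
      intro x
      rw [Measure.addHaar_closedBall _ _ ht.le, finrank_euclideanSpace_fin]
    have h4 : volume A = ENNReal.ofReal (R ^ d) * volume (ball (0 : E d) 1) := by
      rw [hA, Measure.addHaar_closedBall _ _ hR0, finrank_euclideanSpace_fin]
    simp only [h3, Finset.sum_const, nsmul_eq_mul] at h2
    rw [h4] at h2
    have hb0 : volume (ball (0 : E d) 1) ≠ 0 := (measure_ball_pos _ _ one_pos).ne'
    have hbt : volume (ball (0 : E d) 1) ≠ ⊤ := measure_ball_lt_top.ne
    rw [← mul_assoc, ENNReal.mul_le_mul_iff_left hb0 hbt] at h2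
    rw [← ENNReal.ofReal_natCast, ← ENNReal.ofReal_mul (Nat.cast_nonneg _)] at h2
    have h5 := (ENNReal.ofReal_le_ofReal_iff (by positivity)).1 h2
    have h6 : (1 / t - 1 / 2) ^ d * t ^ d = R ^ d := by
      rw [← mul_pow]
      congr 1
      rw [hR]
      field_simp
    have h7 : 0 < t ^ d := pow_pos ht d
    rw [← h6] at h5
    exact le_of_mul_le_mul_right h5 h7

end PCG
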