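import Pool.Agent.PCG.Near
import Pool.Agent.PCW.Defs

/-!
# Cones over convex sets of the unit ball
-/

set_option autoImplicit false

open MeasureTheory Module Set Metric PCW
open scoped ENNReal Pointwise RealInnerProductSpace

namespace PCG

/-- `ℝ^d × ℝ` with the Euclidean norm -/
abbrev W (d : ℕ) := WithLp 2 (E d × ℝ)

section
variable {d : ℕ}

lemma inner_W (z z' : W d) : ⟪z, z'⟫ = ⟪z.fst, z'.fst⟫ + z.snd * z'.snd := by
  rw [WithLp.prod_inner_apply]
  simp [mul_comm]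

lemma norm_fst_le (z : W d) : ‖z.fst‖ ≤ ‖z‖ := by
  refine le_of_sq_le_sq ?_ (norm_nonneg _)
  rw [WithLp.prod_norm_sq_eq_of_L2 z]
  nlinarith [sq_nonneg ‖z.snd‖]

lemma abs_snd_le (z : W d) : |z.snd| ≤ ‖z‖ := by
  refine le_of_sq_le_sq ?_ (norm_nonneg _)
  rw [WithLp.prod_norm_sq_eq_of_L2 z, Real.norm_eq_abs]
  nlinarith [sq_nonneg ‖z.fst‖]

lemma finrank_W : finrank ℝ (W d) = d + 1 := by
  rw [(WithLp.linearEquiv 2 ℝ (E d × ℝ)).finrank_eq, Module.finrank_prod, finrank_euclideanSpace_fin,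
    Module.finrank_self]

/-- a point of `ℝ^d × ℝ` -/
def pt (x : E d) (y : ℝ) : W d := WithLp.toLp 2 (x, y)

/-- the cone over `C`, placed at height `h`, without its apex -/
def U (C : Set (E d)) (h : ℝ) : Set (W d) := {z | 0 < z.snd ∧ (h / z.snd) • z.fst ∈ C}

lemma pt_mem {C : Set (E d)} {h : ℝ} (hh : 0 < h) {x : E d} (hx : x ∈ C) : pt x h ∈ U C h := by
  refine ⟨hh, ?_⟩
  show (h / h) • x ∈ C
  rwa [div_self hh.ne', one_smul]

lemma convex_U {C : Set (E d)} (hC : Convex ℝ C) (h : ℝ) : Convex ℝ (U C h) := by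
  rintro z ⟨hz1, hz2⟩ z' ⟨hz1', hz2'⟩ a b ha hb hab
  have e1 : (a • z + b • z').snd = a * z.snd + b * z'.snd := rfl
  have e2 : (a • z + b • z').fst = a • z.fst + b • z'.fst := rfl
  have hpos : 0 < a * z.snd + b * z'.snd := by
    rcases ha.eq_or_lt with h0 | h0
    · have hb1 : b = 1 := by linarith
      rw [← h0, hb1]
      linarith
    · have := mul_pos h0 hz1
      have := mul_nonneg hb hz1'.le
      linarith
  refine ⟨by rw [e1]; exact hpos, ?_⟩
  rw [e1, e2]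
  have h1 := hC hz2 hz2' (a := a * z.snd / (a * z.snd + b * z'.snd)) (b := b * z'.snd / (a * z.snd + b * z'.snd))
    (by positivity) (by positivity) (by rw [← add_div, div_self hpos.ne'])
  have e3 : (a * z.snd / (a * z.snd + b * z'.snd)) • (h / z.snd) • z.fst +
      (b * z'.snd / (a * z.snd + b * z'.snd)) • (h / z'.snd) • z'.fst =
      (h / (a * z.snd + b * z'.snd)) • (a • z.fst + b • z'.fst) := by
    rw [smul_smul, smul_smul, smul_add, smul_smul, smul_smul]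
    congr 2
    · field_simp
    · field_simp
  rwa [e3] at h1

lemma smul_U {C : Set (E d)} {h c : ℝ} (hc : 0 < c) {z : W d} (hz : z ∈ U C h) : c • z ∈ U C h := by
  obtain ⟨h1, h2⟩ := hz
  have e1 : (c • z).snd = c * z.snd := rfl
  have e2 : (c • z).fst = c • z.fst := rfl
  refine ⟨by rw [e1]; positivity, ?_⟩
  rw [e1, e2, smul_smul]
  have e3 : h / (c * z.snd) * c = h / z.snd := by
    field_simp
  rwa [e3]

/-- the closed cone over `C` -/
def KK (C : Set (E d)) (h : ℝ) : Set (W d) := closure (U C h)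

lemma cc_KK {C : Set (E d)} (hC : Convex ℝ C) (hne : C.Nonempty) {h : ℝ} (hh : 0 < h) : CC (KK C h) where
  cl := isClosed_closure
  co := (convex_U hC h).closure
  sm c hc x hx := map_mem_closure (continuous_const_smul c) hx fun _ hz => smul_U hc hz
  ne := by
    obtain ⟨x, hx⟩ := hne
    exact ⟨_, subset_closure (pt_mem hh hx)⟩

/-- extreme points in a direction -/
lemma wid {C : Set (E d)} (hne : C.Nonempty) (hCb : C ⊆ closedBall 0 1) {u : E d} {a : ℝ} (hw : a ≤ wd C u) :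
    ∃ x ∈ closure C, ∃ y ∈ closure C, a ≤ ⟪x, u⟫ - ⟪y, u⟫ := by
  have hcp : IsCompact (closure C) :=
    (isCompact_closedBall (0 : E d) 1).of_isClosed_subset isClosed_closure
      (closure_minimal hCb isClosed_closedBall)
  have hcont : Continuous fun x : E d => ⟪x, u⟫ := by fun_prop
  obtain ⟨x, hx, hmx⟩ := hcp.exists_isMaxOn hne.closure hcont.continuousOn
  obtain ⟨y, hy, hmy⟩ := hcp.exists_isMinOn hne.closure hcont.continuousOn
  refine ⟨x, hx, y, hy, hw.trans ?_⟩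
  unfold wd
  have h1 : sSup ((fun x => ⟪x, u⟫) '' C) ≤ ⟪x, u⟫ := by
    refine csSup_le (hne.image _) ?_
    rintro _ ⟨z, hz, rfl⟩
    exact hmx (subset_closure hz)
  have h2 : ⟪y, u⟫ ≤ sInf ((fun x => ⟪x, u⟫) '' C) := by
    refine le_csInf (hne.image _) ?_
    rintro _ ⟨z, hz, rfl⟩
    exact hmy (subset_closure hz)
  linarith

lemma dl_KK {C : Set (E d)} {h : ℝ} (hh : 0 < h) {z : W d} (hz : z ∈ dl (KK C h)) {x : E d} (hx : x ∈ closure C) :
    0 ≤ ⟪x, z.fst⟫ + h * z.snd := by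
  have hcl : IsClosed {x : E d | 0 ≤ ⟪x, z.fst⟫ + h * z.snd} := isClosed_le (by fun_prop) (by fun_prop)
  refine closure_minimal (fun y hy => ?_) hcl hx
  have h1 := hz _ (subset_closure (pt_mem hh hy))
  rw [inner_W] at h1
  exact h1

/-- the width of a set of the ball -/
def Wide (C : Set (E d)) (t : ℝ) : Prop := ∀ u : E d, ‖u‖ = 1 → t ≤ wd C u

lemma wid' {C : Set (E d)} (hne : C.Nonempty) (hCb : C ⊆ closedBall 0 1) {t : ℝ} (hw : Wide C t) (Y : E d) :
    ∃ x ∈ closure C, ∃ y ∈ closure C, t * ‖Y‖ ≤ ⟪x, Y⟫ - ⟪y, Y⟫ := by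
  by_cases hY : Y = 0
  · obtain ⟨x, hx⟩ := hne
    exact ⟨x, subset_closure hx, x, subset_closure hx, by rw [hY]; simp⟩
  · have hn : 0 < ‖Y‖ := norm_pos_iff.2 hY
    have hu : ‖‖Y‖⁻¹ • Y‖ = 1 := by
      rw [norm_smul, norm_inv, norm_norm, inv_mul_cancel₀ hn.ne']
    obtain ⟨x, hx, y, hy, h1⟩ := wid hne hCb (hw _ hu)
    refine ⟨x, hx, y, hy, ?_⟩
    rw [real_inner_smul_right, real_inner_smul_right, ← mul_sub, ← div_eq_inv_mul, le_div_iff₀ hn] at h1
    exact h1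

lemma norm_closure {C : Set (E d)} (hCb : C ⊆ closedBall 0 1) {x : E d} (hx : x ∈ closure C) : ‖x‖ ≤ 1 :=
  mem_closedBall_zero_iff.1 (closure_minimal hCb isClosed_closedBall hx)

/-- **the dual of the cone over a wide set is almost acute** -/
theorem na_KK {C : Set (E d)} (hne : C.Nonempty) (hCb : C ⊆ closedBall 0 1) {s h : ℝ} (hs : 0 ≤ s) (hh : 0 < h)
    (hw : Wide C (1 - s)) : NA (KK C h) (h + √(2 * s + 2 * h) + s / h) := by
  -- lower bound for the last coordinate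
  have fact1 : ∀ z ∈ dl (KK C h), -(s / h * ‖z‖) ≤ z.snd := by
    intro z hz
    obtain ⟨x, hx, y, hy, h1⟩ := wid' hne hCb hw z.fst
    have h2 : ⟪x, z.fst⟫ ≤ ‖z.fst‖ := by
      refine (real_inner_le_norm _ _).trans ?_
      have := norm_closure hCb hx
      nlinarith [norm_nonneg z.fst]
    have h3 := dl_KK hh hz hy
    have h4 : -(s * ‖z.fst‖) ≤ h * z.snd := by linarith
    have h5 : -(s * ‖z‖) ≤ h * z.snd := by
      have := mul_le_mul_of_nonneg_left (norm_fst_le z) hs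
      linarith
    have h6 : -(s / h * ‖z‖) = -(s * ‖z‖) / h := by ring
    rw [h6, div_le_iff₀ hh]
    linarith
  intro z hz z' hz'
  have hN := norm_nonneg z
  have hN' := norm_nonneg z'
  have hY := norm_fst_le z
  have hY' := norm_fst_le z'
  have hη := abs_snd_le z
  have hη' := abs_snd_le z'
  -- the product of the last coordinates
  have fact3 : -(s / h * ‖z‖ * ‖z'‖) ≤ z.snd * z'.snd := by
    have a1 := fact1 z hz
    have a2 := fact1 z' hz'
    have b1 := (abs_le.1 hη).2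
    have b2 := (abs_le.1 hη').2
    have hsh : 0 ≤ s / h := by positivity
    rcases le_total 0 z.snd with c | c
    · have e1 : z.snd * (-(s / h * ‖z'‖)) ≤ z.snd * z'.snd := mul_le_mul_of_nonneg_left a2 c
      have e2 : z.snd * (s / h * ‖z'‖) ≤ ‖z‖ * (s / h * ‖z'‖) := mul_le_mul_of_nonneg_right b1 (by positivity)
      nlinarith
    · rcases le_total 0 z'.snd with c' | c'
      · have e1 : (-(s / h * ‖z‖)) * z'.snd ≤ z.snd * z'.snd := mul_le_mul_of_nonneg_right a1 c'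
        have e2 : (s / h * ‖z‖) * z'.snd ≤ (s / h * ‖z‖) * ‖z'‖ := mul_le_mul_of_nonneg_left b2 (by positivity)
        nlinarith
      · have e1 : 0 ≤ z.snd * z'.snd := mul_nonneg_of_nonpos_of_nonpos c c'
        have e2 : 0 ≤ s / h * ‖z‖ * ‖z'‖ := by positivity
        linarith
  -- the product of the first coordinates
  have fact2 : -(h * ‖z‖ * ‖z'‖) - √(2 * s + 2 * h) * ‖z‖ * ‖z'‖ ≤ ⟪z.fst, z'.fst⟫ := by
    obtain ⟨x, hx, y, hy, h1⟩ := wid' hne hCb hw z.fst
    have h3 := dl_KK hh hz hy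
    have h4 := dl_KK hh hz' hx
    have hx1 := norm_closure hCb hx
    set v : E d := ‖z.fst‖ • x - z.fst with hv
    have h5 : ‖v‖ ^ 2 ≤ (√(2 * s + 2 * h) * ‖z‖) ^ 2 := by
      rw [mul_pow, Real.sq_sqrt (by positivity), hv, @norm_sub_sq_real, norm_smul, norm_norm, real_inner_smul_left]
      have g1 : (‖z.fst‖ * ‖x‖) ^ 2 ≤ ‖z.fst‖ ^ 2 := by
        have : ‖z.fst‖ * ‖x‖ ≤ ‖z.fst‖ := mul_le_of_le_one_right (norm_nonneg _) hx1
        exact pow_le_pow_left₀ (by positivity) this 2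
      have g2 : (1 - s) * ‖z.fst‖ - h * z.snd ≤ ⟪x, z.fst⟫ := by linarith
      have g3 := mul_le_mul_of_nonneg_left g2 (norm_nonneg z.fst)
      have g4 : ‖z.fst‖ * z.snd ≤ ‖z‖ ^ 2 := by
        have := (abs_le.1 hη).2
        nlinarith [norm_nonneg z.fst]
      have g5 : ‖z.fst‖ ^ 2 ≤ ‖z‖ ^ 2 := pow_le_pow_left₀ (norm_nonneg _) hY 2
      have g6 := mul_le_mul_of_nonneg_left g4 hh.le
      have g7 := mul_le_mul_of_nonneg_left g5 hs
      nlinarith
    have h6 : ‖v‖ ≤ √(2 * s + 2 * h) * ‖z‖ := le_of_sq_le_sq h5 (by positivity)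
    have e : ⟪z.fst, z'.fst⟫ = ‖z.fst‖ * ⟪x, z'.fst⟫ - ⟪v, z'.fst⟫ := by
      rw [hv, inner_sub_left, real_inner_smul_left]
      ring
    have h7 : ⟪v, z'.fst⟫ ≤ √(2 * s + 2 * h) * ‖z‖ * ‖z'‖ := by
      refine (real_inner_le_norm _ _).trans ?_
      exact mul_le_mul h6 hY' (norm_nonneg _) (by positivity)
    have h8 : -(h * ‖z‖ * ‖z'‖) ≤ ‖z.fst‖ * ⟪x, z'.fst⟫ := by
      have g1 : -(h * z'.snd) ≤ ⟪x, z'.fst⟫ := by linarith
      have g2 : -(h * ‖z'‖) ≤ ⟪x, z'.fst⟫ := by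
        have := mul_le_mul_of_nonneg_left (abs_le.1 hη').2 hh.le
        linarith
      have g3 := mul_le_mul_of_nonneg_left g2 (norm_nonneg z.fst)
      have g4 : ‖z.fst‖ * (h * ‖z'‖) ≤ ‖z‖ * (h * ‖z'‖) := mul_le_mul_of_nonneg_right hY (by positivity)
      nlinarith
    linarith
  rw [inner_W]
  nlinarith

end

end PCG
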