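import Pool.Agent.PCG.Cell
import Pool.Agent.PCG.Code

/-!
# Growth of the packing number for width below one
-/

set_option autoImplicit false

open MeasureTheory Metric PCW PCS.Sec
open scoped RealInnerProductSpace

namespace PCG

lemma quad_le (p q s : ℝ) : p * Real.cos s + q * Real.sin s ≤ √(p ^ 2 + q ^ 2) := by
  refine Real.le_sqrt_of_sq_le ?_
  have h := Real.sin_sq_add_cos_sq s
  nlinarith [sq_nonneg (p * Real.sin s - q * Real.cos s)]

lemma prod_id (y : E 2) (a θ : ℝ) : 2 * (⟪y, e (a + Real.pi / 2)⟫ * ⟪y, e (a + θ + Real.pi / 2)⟫) =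
    (y 0 ^ 2 + y 1 ^ 2) * Real.cos θ -
      ((y 0 ^ 2 - y 1 ^ 2) * Real.cos (2 * a + θ) + 2 * y 0 * y 1 * Real.sin (2 * a + θ)) := by
  rw [inner_e, inner_e, Real.cos_add_pi_div_two, Real.sin_add_pi_div_two, Real.cos_add_pi_div_two,
    Real.sin_add_pi_div_two]
  have h1 : Real.cos θ = Real.cos (a + θ) * Real.cos a + Real.sin (a + θ) * Real.sin a := by
    rw [← Real.cos_sub]
    congr 1
    ring
  have h2 : Real.cos (2 * a + θ) = Real.cos (a + θ) * Real.cos a - Real.sin (a + θ) * Real.sin a := by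
    rw [← Real.cos_add]
    congr 1
    ring
  have h3 : Real.sin (2 * a + θ) = Real.sin (a + θ) * Real.cos a + Real.cos (a + θ) * Real.sin a := by
    rw [← Real.sin_add]
    congr 1
    ring
  rw [h1, h2, h3]
  ring

lemma dj_of_cos {θ a b : ℝ} (h : |Real.cos (a - b)| ≤ Real.cos θ) : Dj θ a b := by
  rintro y ⟨⟨h1, h2⟩, h3, h4⟩
  have e1 := prod_id y a θ
  have e2 := prod_id y b θ
  have n1 : ⟪y, e (a + Real.pi / 2)⟫ * ⟪y, e (a + θ + Real.pi / 2)⟫ < 0 := mul_neg_of_pos_of_neg h1 h2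
  have n2 : ⟪y, e (b + Real.pi / 2)⟫ * ⟪y, e (b + θ + Real.pi / 2)⟫ < 0 := mul_neg_of_pos_of_neg h3 h4
  have c1 : Real.cos (2 * a + θ) + Real.cos (2 * b + θ) = 2 * Real.cos (a + b + θ) * Real.cos (a - b) := by
    have hx : Real.cos (2 * a + θ) = Real.cos (a + b + θ) * Real.cos (a - b) - Real.sin (a + b + θ) * Real.sin (a - b) := by
      rw [← Real.cos_add]
      congr 1
      ring
    have hy : Real.cos (2 * b + θ) = Real.cos (a + b + θ) * Real.cos (a - b) + Real.sin (a + b + θ) * Real.sin (a - b) := by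
      rw [← Real.cos_sub]
      congr 1
      ring
    rw [hx, hy]
    ring
  have s1 : Real.sin (2 * a + θ) + Real.sin (2 * b + θ) = 2 * Real.sin (a + b + θ) * Real.cos (a - b) := by
    have hx : Real.sin (2 * a + θ) = Real.sin (a + b + θ) * Real.cos (a - b) + Real.cos (a + b + θ) * Real.sin (a - b) := by
      rw [← Real.sin_add]
      congr 1
      ring
    have hy : Real.sin (2 * b + θ) = Real.sin (a + b + θ) * Real.cos (a - b) - Real.cos (a + b + θ) * Real.sin (a - b) := by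
      rw [← Real.sin_sub]
      congr 1
      ring
    rw [hx, hy]
    ring
  set P : ℝ := y 0 ^ 2 - y 1 ^ 2 with hP
  set Q : ℝ := 2 * y 0 * y 1 with hQ
  set R : ℝ := y 0 ^ 2 + y 1 ^ 2 with hR
  have hR0 : 0 ≤ R := by positivity
  have hPQ : √(P ^ 2 + Q ^ 2) = R := by
    have : P ^ 2 + Q ^ 2 = R ^ 2 := by rw [hP, hQ, hR]; ring
    rw [this, Real.sqrt_sq hR0]
  set s : ℝ := a + b + θ with hs
  have hl := quad_le P Q s
  have hu := quad_le (-P) (-Q) s
  rw [neg_sq, neg_sq, hPQ] at hu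
  rw [hPQ] at hl
  have habs : |P * Real.cos s + Q * Real.sin s| ≤ R := abs_le.2 ⟨by linarith, hl⟩
  have hsum : 2 * (R * Real.cos θ) < 2 * ((P * Real.cos s + Q * Real.sin s) * Real.cos (a - b)) := by
    have : P * (Real.cos (2 * a + θ) + Real.cos (2 * b + θ)) + Q * (Real.sin (2 * a + θ) + Real.sin (2 * b + θ)) =
        2 * ((P * Real.cos s + Q * Real.sin s) * Real.cos (a - b)) := by
      rw [c1, s1]
      ring
    rw [← this]
    nlinarith
  have hle : (P * Real.cos s + Q * Real.sin s) * Real.cos (a - b) ≤ R * Real.cos θ := by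
    calc (P * Real.cos s + Q * Real.sin s) * Real.cos (a - b) ≤ |(P * Real.cos s + Q * Real.sin s) * Real.cos (a - b)| :=
          le_abs_self _
      _ = |P * Real.cos s + Q * Real.sin s| * |Real.cos (a - b)| := abs_mul _ _
      _ ≤ R * Real.cos θ := mul_le_mul habs h (abs_nonneg _) hR0
  linarith

lemma dj_of_opp {θ a b : ℝ} (h : a = b + Real.pi ∨ b = a + Real.pi) : Dj θ a b := by
  have key : ∀ c : ℝ, ∀ y : E 2, ⟪y, e (c + Real.pi + Real.pi / 2)⟫ = -⟪y, e (c + Real.pi / 2)⟫ := by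
    intro c y
    have h1 : c + Real.pi + Real.pi / 2 = (c + Real.pi / 2) + Real.pi := by ring
    rw [h1, inner_e, inner_e, Real.cos_add_pi, Real.sin_add_pi]
    ring
  rintro y ⟨⟨h1, -⟩, h3, -⟩
  rcases h with h | h
  · rw [h, key] at h1
    linarith
  · rw [h, key] at h3
    linarith

/-- the angle of the letters -/
noncomputable def th (k : ℕ) : ℝ := (k + 1) * Real.pi / (2 * k + 3)

lemma th_pos (k : ℕ) : 0 < th k := by
  unfold th
  have := Real.pi_pos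
  positivity

lemma th_eq (k : ℕ) : th k = Real.pi / 2 - Real.pi / (2 * (2 * k + 3)) := by
  unfold th
  have : (2 * (k : ℝ) + 3) ≠ 0 := by positivity
  field_simp
  ring

lemma th_le (k : ℕ) : th k ≤ Real.pi / 2 := by
  rw [th_eq]
  have := Real.pi_pos
  have : 0 < Real.pi / (2 * (2 * (k : ℝ) + 3)) := by positivity
  linarith

lemma abs_cos_add_int (x : ℝ) (z : ℤ) : |Real.cos (x + z * Real.pi)| = |Real.cos x| := by
  rw [Real.cos_add_int_mul_pi, abs_mul, abs_zpow, abs_neg, abs_one, one_zpow, one_mul]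

lemma th_mul (k : ℕ) : ((2 * k + 3 : ℕ) : ℝ) * th k = (k + 1) * Real.pi := by
  unfold th
  push_cast
  have : (2 * (k : ℝ) + 3) ≠ 0 := by positivity
  field_simp

lemma abs_cos_nb {k : ℕ} {D : ℤ} (h : ((2 * k + 3 : ℕ) : ℤ) ∣ D - 1 ∨ ((2 * k + 3 : ℕ) : ℤ) ∣ D + 1) (z : ℤ) :
    |Real.cos (D * th k + z * Real.pi)| = Real.cos (th k) := by
  have hc : 0 ≤ Real.cos (th k) := Real.cos_nonneg_of_neg_pi_div_two_le_of_le (by
    have := th_pos k; have := Real.pi_pos; linarith) (th_le k)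
  rw [abs_cos_add_int]
  rcases h with ⟨m, hm⟩ | ⟨m, hm⟩
  · have h1 : (D : ℝ) * th k = th k + ((m * (k + 1) : ℤ) : ℝ) * Real.pi := by
      have h2 : (D : ℝ) = ((2 * k + 3 : ℕ) : ℝ) * m + 1 := by
        have : D = ((2 * k + 3 : ℕ) : ℤ) * m + 1 := by omega
        rw [this]
        push_cast
        ring
      rw [h2, add_mul, mul_assoc, mul_comm (m : ℝ) (th k), ← mul_assoc, th_mul]
      push_cast
      ring
    rw [h1, abs_cos_add_int, abs_of_nonneg hc]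
  · have h1 : (D : ℝ) * th k = -th k + ((m * (k + 1) : ℤ) : ℝ) * Real.pi := by
      have h2 : (D : ℝ) = ((2 * k + 3 : ℕ) : ℝ) * m - 1 := by
        have : D = ((2 * k + 3 : ℕ) : ℤ) * m - 1 := by omega
        rw [this]
        push_cast
        ring
      rw [h2, sub_mul, mul_assoc, mul_comm (m : ℝ) (th k), ← mul_assoc, th_mul]
      push_cast
      ring
    rw [h1, abs_cos_add_int, Real.cos_neg, abs_of_nonneg hc]

/-- `(4 ^ n + 2 ^ n) ^ q * 2 ^ r` products of sectors and half lines, `n = 2 ^ k` -/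
theorem lower_code (k q r : ℕ) {t : ℝ} (ht : t ≤ Real.cos (Real.pi / (2 * (2 * k + 3)))) {d : ℕ}
    (hd : d = 2 * (q * 2 ^ k) + r) : Pack d t ((4 ^ 2 ^ k + 2 ^ 2 ^ k) ^ q * 2 ^ r) := by
  classical
  set n : ℕ := 2 ^ k with hn
  obtain ⟨w, hw⟩ : ∃ w : Fin (2 ^ n + 1) → Fin n → ℤ, ∀ p q, p ≠ q →
      ∃ i, ((2 * k + 3 : ℕ) : ℤ) ∣ w p i - w q i - 1 ∨ ((2 * k + 3 : ℕ) : ℤ) ∣ w p i - w q i + 1 := exists_code k
  let I : Type := Fin q × Fin n
  let Ω : Type := (Fin q → Fin (2 ^ n + 1)) × (I → Bool)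
  let a : Ω → I → ℝ := fun ω i => (w (ω.1 i.1) i.2 : ℝ) * th k + (if ω.2 i then ((1 : ℤ) : ℝ) else ((0 : ℤ) : ℝ)) * Real.pi
  have hcard : Fintype.card Ω = (4 ^ n + 2 ^ n) ^ q := by
    have h1 : Fintype.card Ω = (2 ^ n + 1) ^ q * 2 ^ (q * n) := by
      simp [Ω, I, Fintype.card_prod]
    rw [h1, mul_comm q n, pow_mul, ← mul_pow]
    congr 1
    have h4 : (4 : ℕ) ^ n = 2 ^ n * 2 ^ n := by
      rw [← mul_pow]
      norm_num
    rw [h4]
    ring
  have hsin : t ≤ Real.sin (th k) := by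
    rw [th_eq, Real.sin_pi_div_two_sub]
    exact ht
  rw [← hcard]
  refine pack_words (th_pos k) (th_le k) a r ?_ (by rw [hd]; simp [I]) hsin
  rintro ⟨f, s⟩ ⟨f', s'⟩ hne
  by_cases hf : f = f'
  · subst hf
    have hs : s ≠ s' := fun h => hne (by rw [h])
    obtain ⟨i, hi⟩ := Function.ne_iff.1 hs
    refine ⟨i, dj_of_opp ?_⟩
    change (w (f i.1) i.2 : ℝ) * th k + (if s i then ((1 : ℤ) : ℝ) else ((0 : ℤ) : ℝ)) * Real.pi =
      (w (f i.1) i.2 : ℝ) * th k + (if s' i then ((1 : ℤ) : ℝ) else ((0 : ℤ) : ℝ)) * Real.pi + Real.pi ∨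
      (w (f i.1) i.2 : ℝ) * th k + (if s' i then ((1 : ℤ) : ℝ) else ((0 : ℤ) : ℝ)) * Real.pi =
      (w (f i.1) i.2 : ℝ) * th k + (if s i then ((1 : ℤ) : ℝ) else ((0 : ℤ) : ℝ)) * Real.pi + Real.pi
    cases h1 : s i <;> cases h2 : s' i
    · exact (hi (by rw [h1, h2])).elim
    · right
      simp
    · left
      simp
    · exact (hi (by rw [h1, h2])).elim
  · obtain ⟨b, hb⟩ := Function.ne_iff.1 hf
    obtain ⟨i, hi⟩ := hw (f b) (f' b) hb
    refine ⟨(b, i), dj_of_cos ?_⟩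
    have h1 : a (f, s) (b, i) - a (f', s') (b, i) = ((w (f b) i - w (f' b) i : ℤ) : ℝ) * th k +
        (((if s (b, i) then (1 : ℤ) else 0) - (if s' (b, i) then (1 : ℤ) else 0) : ℤ) : ℝ) * Real.pi := by
      simp only [a]
      push_cast
      ring
    rw [h1, abs_cos_nb hi]

/-- the explicit lower bound: with `n = 2 ^ k`, the number `2 ^ d` is exceeded by the factor
`(1 + 2 ^ (-n)) ^ ⌊d / (2 n)⌋` -/
theorem lower_explicit (k d : ℕ) {t : ℝ} (ht : t ≤ Real.cos (Real.pi / (4 * k + 6))) :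
    ∃ m, Pack d t m ∧ (2 : ℝ) ^ d * (1 + 1 / 2 ^ 2 ^ k) ^ (d / 2 ^ (k + 1)) = (m : ℝ) := by
  have ht' : t ≤ Real.cos (Real.pi / (2 * (2 * k + 3))) := by
    have : (2 * (2 * (k : ℝ) + 3)) = 4 * k + 6 := by ring
    rw [this]
    exact ht
  set n : ℕ := 2 ^ k with hn
  set q : ℕ := d / 2 ^ (k + 1) with hq
  set r : ℕ := d % 2 ^ (k + 1) with hr
  have hd : d = 2 * (q * n) + r := by
    have h1 := Nat.div_add_mod d (2 ^ (k + 1))
    rw [← hq, ← hr, pow_succ, ← hn] at h1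
    rw [← h1]
    ring
  refine ⟨(4 ^ n + 2 ^ n) ^ q * 2 ^ r, lower_code k q r ht' hd, ?_⟩
  have hn2 : (0 : ℝ) < 2 ^ n := by positivity
  have h2 : (4 : ℝ) ^ n = 2 ^ n * 2 ^ n := by
    rw [← mul_pow]
    norm_num
  push_cast
  have h3 : (4 : ℝ) ^ n + 2 ^ n = 2 ^ (2 * n) * (1 + 1 / 2 ^ n) := by
    rw [h2, two_mul, pow_add]
    field_simp
  have h4 : (2 : ℝ) ^ d = (2 ^ (2 * n)) ^ q * 2 ^ r := by
    rw [← pow_mul, ← pow_add]
    congr 1
    rw [hd]
    ring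
  rw [h3, h4, mul_pow]
  ring

/-- for width below one the growth rate is larger than two -/
theorem lower_growth {t : ℝ} (ht : t < 1) : ∃ c : ℝ, 2 < c ∧ ∃ D : ℕ, ∀ d, D ≤ d → ∃ m, Pack d t m ∧ c ^ d ≤ (m : ℝ) := by
  -- choose `k`
  obtain ⟨k, hk⟩ : ∃ k : ℕ, t ≤ Real.cos (Real.pi / (4 * k + 6)) := by
    have h1 : Filter.Tendsto (fun k : ℕ => Real.cos (Real.pi / (4 * (k : ℝ) + 6))) Filter.atTop (nhds 1) := by
      have h2 : Filter.Tendsto (fun k : ℕ => Real.pi / (4 * (k : ℝ) + 6)) Filter.atTop (nhds 0) := by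
        refine Filter.Tendsto.div_atTop tendsto_const_nhds ?_
        refine Filter.tendsto_atTop_add_const_right _ _ ?_
        exact Filter.Tendsto.const_mul_atTop (by norm_num) tendsto_natCast_atTop_atTop
      have h3 := (Real.continuous_cos.tendsto 0).comp h2
      simpa [Function.comp_def] using h3
    obtain ⟨k, hk⟩ := (h1.eventually (lt_mem_nhds ht)).exists
    exact ⟨k, hk.le⟩
  set s : ℕ := 2 ^ (k + 1) with hs
  have hs0 : 0 < s := by rw [hs]; positivity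
  set η : ℝ := 1 + 1 / 2 ^ 2 ^ k with hη
  have hη1 : 1 < η := by
    rw [hη]
    have : (0 : ℝ) < 1 / 2 ^ 2 ^ k := by positivity
    linarith
  obtain ⟨ρ, hρ1, hρ⟩ : ∃ ρ : ℝ, 1 < ρ ∧ ρ ^ s < η := by
    have h1 : Filter.Tendsto (fun c : ℝ => c ^ s) (nhdsWithin 1 (Set.Ioi 1)) (nhds (1 ^ s)) :=
      ((continuous_pow s).tendsto 1).mono_left nhdsWithin_le_nhds
    rw [one_pow] at h1
    have h2 := h1.eventually (gt_mem_nhds hη1)
    obtain ⟨c, h3, h4⟩ := (h2.and self_mem_nhdsWithin).exists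
    exact ⟨c, h4, h3⟩
  have hρ0 : 0 < ρ := by linarith
  have hρp : 0 < ρ ^ s := pow_pos hρ0 _
  have hq1 : 1 < η / ρ ^ s := (one_lt_div hρp).2 hρ
  obtain ⟨Q, hQ⟩ := pow_unbounded_of_one_lt (ρ ^ s) hq1
  refine ⟨2 * ρ, by linarith, s * Q, fun d hd => ?_⟩
  obtain ⟨m, hm, hm2⟩ := lower_explicit k d hk
  refine ⟨m, hm, ?_⟩
  rw [← hm2, mul_pow, ← hs, ← hη]
  refine mul_le_mul_of_nonneg_left ?_ (by positivity)
  set q : ℕ := d / s with hq
  have hqQ : Q ≤ q := (Nat.le_div_iff_mul_le hs0).2 (by rw [mul_comm]; exact hd)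
  have hdq : d ≤ s * (q + 1) := (Nat.lt_mul_div_succ d hs0).le
  have h5 : ρ ^ s ≤ (η / ρ ^ s) ^ q := hQ.le.trans (pow_le_pow_right₀ hq1.le hqQ)
  rw [div_pow, le_div_iff₀ (pow_pos hρp _), ← pow_succ'] at h5
  calc ρ ^ d ≤ ρ ^ (s * (q + 1)) := pow_le_pow_right₀ hρ1.le hdq
    _ = (ρ ^ s) ^ (q + 1) := pow_mul _ _ _
    _ ≤ η ^ q := h5

end PCG
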