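import Pool.Agent.PCG.RS
import Pool.Agent.PCS.Vol

/-!
# The volume of a cone whose dual cone is almost acute
-/

set_option autoImplicit false

open MeasureTheory Module Set Metric
open scoped ENNReal Pointwise RealInnerProductSpace

namespace PCG

section
variable {V : Type*} [NormedAddCommGroup V] [InnerProductSpace ℝ V]

/-- the dual cone -/
def dl (K : Set V) : Set V := {y | ∀ x ∈ K, 0 ≤ ⟪x, y⟫}

/-- closed convex cones -/
structure CC (K : Set V) : Prop where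
  cl : IsClosed K
  co : Convex ℝ K
  sm : ∀ c : ℝ, 0 < c → ∀ x ∈ K, c • x ∈ K
  ne : K.Nonempty

lemma zero_dl (K : Set V) : (0 : V) ∈ dl K := fun x _ => by simp

lemma CC.zero {K : Set V} (h : CC K) : (0 : V) ∈ K := by
  obtain ⟨x, hx⟩ := h.ne
  have h1 : Filter.Tendsto (fun n : ℕ => (1 / ((n : ℝ) + 1)) • x) Filter.atTop (nhds ((0 : ℝ) • x)) :=
    tendsto_one_div_add_atTop_nhds_zero_nat.smul_const x
  rw [zero_smul] at h1
  exact h.cl.mem_of_tendsto h1 (Filter.Eventually.of_forall fun n => h.sm _ (by positivity) x hx)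

lemma CC.smul {K : Set V} (h : CC K) {c : ℝ} (hc : 0 ≤ c) {x : V} (hx : x ∈ K) : c • x ∈ K := by
  rcases hc.eq_or_lt with h0 | h0
  · rw [← h0, zero_smul]
    exact h.zero
  · exact h.sm c h0 x hx

lemma CC.add {K : Set V} (h : CC K) {x y : V} (hx : x ∈ K) (hy : y ∈ K) : x + y ∈ K := by
  have h1 := h.co hx hy (by norm_num : (0 : ℝ) ≤ 1 / 2) (by norm_num : (0 : ℝ) ≤ 1 / 2) (by norm_num)
  have h2 := h.smul (by norm_num : (0 : ℝ) ≤ 2) h1
  have e : (2 : ℝ) • ((1 / 2 : ℝ) • x + (1 / 2 : ℝ) • y) = x + y := by module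
  rwa [e] at h2

lemma dl_add {K : Set V} {x y : V} (hx : x ∈ dl K) (hy : y ∈ dl K) : x + y ∈ dl K := fun z hz => by
  rw [inner_add_right]
  exact add_nonneg (hx z hz) (hy z hz)

lemma dl_smul {K : Set V} {c : ℝ} (hc : 0 ≤ c) {x : V} (hx : x ∈ dl K) : c • x ∈ dl K := fun z hz => by
  rw [real_inner_smul_right]
  exact mul_nonneg hc (hx z hz)

/-- the decomposition of Moreau -/
lemma CC.moreau [FiniteDimensional ℝ V] {K : Set V} (h : CC K) (x : V) :
    ∃ p : V, p ∈ K ∧ p - x ∈ dl K ∧ ⟪p, p - x⟫ = 0 := by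
  obtain ⟨p, hp, hpn⟩ := exists_norm_eq_iInf_of_complete_convex ⟨0, h.zero⟩ h.cl.isComplete h.co x
  rw [norm_eq_iInf_iff_real_inner_le_zero h.co hp] at hpn
  have h0 : ⟪x - p, p⟫ = 0 := by
    have h1 := hpn 0 h.zero
    have h2 := hpn ((2 : ℝ) • p) (h.smul (by norm_num) hp)
    rw [two_smul, add_sub_cancel_right] at h2
    rw [zero_sub, inner_neg_right] at h1
    linarith
  have hk : ∀ k ∈ K, ⟪x - p, k⟫ ≤ 0 := by
    intro k hk
    have h1 := hpn k hk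
    rw [inner_sub_right, h0] at h1
    linarith
  refine ⟨p, hp, fun k hk' => ?_, ?_⟩
  · have h3 := hk k hk'
    rw [← neg_sub x p, inner_neg_right, real_inner_comm]
    linarith
  · rw [← neg_sub x p, inner_neg_right, real_inner_comm, h0, neg_zero]

/-- the dual cone is almost acute -/
def NA (K : Set V) (ε : ℝ) : Prop := ∀ y ∈ dl K, ∀ y' ∈ dl K, -(ε * ‖y‖ * ‖y'‖) ≤ ⟪y, y'⟫

/-- the sum of a cone and its dual -/
def MM (K : Set V) : Set V := closure (K + dl K)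

lemma sub_MM {K : Set V} : K ⊆ MM K := fun x hx =>
  subset_closure ⟨x, hx, 0, zero_dl K, add_zero x⟩

lemma CC.dl_sub_MM {K : Set V} (h : CC K) : dl K ⊆ MM K := fun y hy =>
  subset_closure ⟨0, h.zero, y, hy, zero_add y⟩

lemma CC.convex_MM {K : Set V} (h : CC K) : Convex ℝ (MM K) := by
  refine (h.co.add ?_).closure
  intro x hx y hy a b ha hb _
  exact dl_add (dl_smul ha hx) (dl_smul hb hy)

lemma CC.smul_MM {K : Set V} (h : CC K) {c : ℝ} (hc : 0 ≤ c) {x : V} (hx : x ∈ MM K) : c • x ∈ MM K := by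
  refine map_mem_closure (continuous_const_smul c) hx ?_
  rintro _ ⟨a, ha, b, hb, rfl⟩
  exact ⟨c • a, h.smul hc ha, c • b, dl_smul hc hb, (smul_add c a b).symm⟩

lemma CC.dual_MM {K : Set V} (h : CC K) {y : V} (hy : ∀ x ∈ MM K, 0 ≤ ⟪x, y⟫) : y ∈ MM K :=
  h.dl_sub_MM fun x hx => hy x (sub_MM hx)

lemma na_MM {K : Set V} {ε : ℝ} (h0 : 0 ≤ ε) (hna : NA K ε) {x b : V} (hx : x ∈ MM K) (hb : b ∈ dl K) :
    -(ε * ‖x‖ * ‖b‖) ≤ ⟪x, b⟫ := by
  have hcl : IsClosed {x : V | -(ε * ‖x‖ * ‖b‖) ≤ ⟪x, b⟫} := isClosed_le (by fun_prop) (by fun_prop)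
  have hsub : K + dl K ⊆ {x : V | -(ε * ‖x‖ * ‖b‖) ≤ ⟪x, b⟫} := by
    rintro _ ⟨a, ha, y, hy, rfl⟩
    show -(ε * ‖a + y‖ * ‖b‖) ≤ ⟪a + y, b⟫
    rw [inner_add_left]
    have h1 : 0 ≤ ⟪a, b⟫ := hb a ha
    have h2 := hna y hy b hb
    have h3 : ‖y‖ ≤ ‖a + y‖ := by
      have h4 : ‖y‖ ^ 2 ≤ ‖a + y‖ ^ 2 := by
        rw [@norm_add_sq_real]
        have h5 : 0 ≤ ⟪a, y⟫ := hy a ha
        nlinarith [sq_nonneg ‖a‖]
      exact le_of_sq_le_sq h4 (norm_nonneg _)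
    have h4 : ε * ‖y‖ * ‖b‖ ≤ ε * ‖a + y‖ * ‖b‖ := by gcongr
    linarith
  exact closure_minimal hsub hcl hx

/-- decomposition of the points of `MM K` -/
lemma CC.dec_MM [FiniteDimensional ℝ V] {K : Set V} (h : CC K) {ε : ℝ} (h0 : 0 ≤ ε) (hna : NA K ε) {x : V}
    (hx : x ∈ MM K) : ∃ p ∈ K, ∃ b ∈ dl K, x = p - b ∧ ‖p‖ ≤ ‖x‖ ∧ ‖b‖ ≤ ε * ‖x‖ := by
  obtain ⟨p, hp, hb, ho⟩ := h.moreau x
  refine ⟨p, hp, p - x, hb, by abel, ?_, ?_⟩
  · have h1 : ‖x‖ ^ 2 = ‖p‖ ^ 2 + ‖p - x‖ ^ 2 := by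
      have e : x = p - (p - x) := by abel
      conv_lhs => rw [e, @norm_sub_sq_real, ho]
      ring
    have h2 : ‖p‖ ^ 2 ≤ ‖x‖ ^ 2 := by nlinarith [sq_nonneg ‖p - x‖]
    exact le_of_sq_le_sq h2 (norm_nonneg _)
  · have h1 := na_MM h0 hna hx hb
    have h2 : ⟪x, p - x⟫ = -‖p - x‖ ^ 2 := by
      have e : ⟪x, p - x⟫ = ⟪p, p - x⟫ - ⟪p - x, p - x⟫ := by
        rw [← inner_sub_left]
        congr 1
        abel
      rw [e, ho, real_inner_self_eq_norm_sq]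
      ring
    rw [h2] at h1
    by_cases h3 : ‖p - x‖ = 0
    · rw [h3]
      positivity
    · have h4 : 0 < ‖p - x‖ := lt_of_le_of_ne (norm_nonneg _) (Ne.symm h3)
      have h5 : ‖p - x‖ * ‖p - x‖ ≤ ε * ‖x‖ * ‖p - x‖ := by nlinarith
      exact le_of_mul_le_mul_right h5 h4

end

section
variable {V : Type*} [NormedAddCommGroup V] [InnerProductSpace ℝ V] [FiniteDimensional ℝ V]

lemma CC.compact {K : Set V} (h : CC K) : IsCompact (K ∩ closedBall 0 1) :=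
  (isCompact_closedBall 0 1).inter_left h.cl

omit [FiniteDimensional ℝ V] in
lemma CC.convex' {K : Set V} (h : CC K) : Convex ℝ (K ∩ closedBall 0 1) := h.co.inter (convex_closedBall 0 1)

/-- the part of `MM K` in the ball -/
lemma CC.incl {K : Set V} (h : CC K) {ε κ : ℝ} (h0 : 0 ≤ ε) (h1 : ε < 1) (hκ : ε / (1 - ε ^ 2) ≤ κ)
    (hna : NA K ε) :
    MM K ∩ closedBall 0 1 ⊆ (1 + κ) • (K ∩ closedBall 0 1) - κ • (K ∩ closedBall 0 1) := by
  set C := K ∩ closedBall (0 : V) 1 with hC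
  set G := MM K ∩ closedBall (0 : V) 1 with hG
  have hε2 : 0 < 1 - ε ^ 2 := by nlinarith
  have hκ0 : 0 ≤ κ := le_trans (by positivity) hκ
  have hCc : IsCompact C := h.compact
  have hGc : IsCompact G := (isCompact_closedBall 0 1).inter_left isClosed_closure
  have hC0 : (0 : V) ∈ C := ⟨h.zero, by simp⟩
  have hCs : ∀ a : ℝ, 0 ≤ a → a ≤ 1 → ∀ x ∈ C, a • x ∈ C := by
    intro a ha ha1 x hx
    refine ⟨h.smul ha hx.1, ?_⟩
    rw [mem_closedBall_zero_iff, norm_smul, Real.norm_of_nonneg ha]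
    have h2 : ‖x‖ ≤ 1 := mem_closedBall_zero_iff.1 hx.2
    have := norm_nonneg x
    nlinarith
  -- every point of `G` is `c - ε g`
  have hdec : ∀ x ∈ G, ∃ c ∈ C, ∃ g ∈ G, x = c - ε • g := by
    intro x hx
    have hx1 : ‖x‖ ≤ 1 := mem_closedBall_zero_iff.1 hx.2
    obtain ⟨p, hp, b, hb, e, hp1, hb1⟩ := h.dec_MM h0 hna hx.1
    refine ⟨p, ⟨hp, by rw [mem_closedBall_zero_iff]; linarith⟩, ?_⟩
    rcases h0.eq_or_lt with h2 | h2
    · have h3 : b = 0 := by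
        rw [← h2, zero_mul] at hb1
        exact norm_eq_zero.1 (le_antisymm hb1 (norm_nonneg _))
      refine ⟨0, ⟨sub_MM h.zero, by simp⟩, ?_⟩
      rw [e, h3, smul_zero]
    · refine ⟨ε⁻¹ • b, ⟨h.smul_MM (by positivity) (h.dl_sub_MM hb), ?_⟩, ?_⟩
      · rw [mem_closedBall_zero_iff, norm_smul, norm_inv, Real.norm_of_nonneg h0, inv_mul_le_iff₀ h2, mul_one]
        nlinarith
      · rw [smul_inv_smul₀ h2.ne']
        exact e
  intro x hx
  by_contra hxS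
  have hSc : IsClosed ((1 + κ) • C - κ • C) := by
    rw [sub_eq_add_neg]
    exact ((hCc.smul (1 + κ)).add (hCc.smul κ).neg).isClosed
  have hSo : Convex ℝ ((1 + κ) • C - κ • C) := (h.convex'.smul _).sub (h.convex'.smul _)
  obtain ⟨f, u, hf1, hf2⟩ := geometric_hahn_banach_closed_point hSo hSc hxS
  have hGne : G.Nonempty := ⟨x, hx⟩
  obtain ⟨x1, hx1, hm1⟩ := hGc.exists_isMaxOn hGne f.continuous.continuousOn
  obtain ⟨x2, hx2, hm2⟩ := hGc.exists_isMinOn hGne f.continuous.continuousOn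
  obtain ⟨c1, hc1, g1, hg1, e1⟩ := hdec x1 hx1
  obtain ⟨c2, hc2, g2, hg2, e2⟩ := hdec x2 hx2
  have k1 : f x1 = f c1 - ε * f g1 := by
    rw [e1, map_sub, map_smul, smul_eq_mul]
  have k2 : f x2 = f c2 - ε * f g2 := by
    rw [e2, map_sub, map_smul, smul_eq_mul]
  have k3 : f x2 ≤ f g1 := hm2 hg1
  have k4 : f g2 ≤ f x1 := hm1 hg2
  have k5 : f x ≤ f x1 := hm1 hx
  have k6 : f x1 * (1 - ε ^ 2) ≤ f c1 - ε * f c2 := by nlinarith [mul_le_mul_of_nonneg_left k3 h0, mul_le_mul_of_nonneg_left k4 h0]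
  have k7 : f x1 ≤ (f c1 - ε * f c2) / (1 - ε ^ 2) := by
    rw [le_div_iff₀ hε2]
    exact k6
  -- the point of the set
  have hpos : 0 < 1 + κ := by linarith
  have q1 : (1 - ε ^ 2)⁻¹ / (1 + κ) ≤ 1 := by
    rw [div_le_one hpos]
    have : (1 - ε ^ 2)⁻¹ ≤ 1 + ε / (1 - ε ^ 2) := by
      rw [inv_eq_one_div, ← sub_nonneg]
      have e : 1 + ε / (1 - ε ^ 2) - 1 / (1 - ε ^ 2) = (ε - ε ^ 2) / (1 - ε ^ 2) := by
        field_simp
        ring
      rw [e]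
      apply div_nonneg _ hε2.le
      nlinarith
    linarith
  have hS : (1 - ε ^ 2)⁻¹ • c1 - (ε / (1 - ε ^ 2)) • c2 ∈ (1 + κ) • C - κ • C := by
    refine ⟨(1 - ε ^ 2)⁻¹ • c1, ⟨((1 - ε ^ 2)⁻¹ / (1 + κ)) • c1, hCs _ (by positivity) q1 _ hc1, ?_⟩,
      (ε / (1 - ε ^ 2)) • c2, ?_, rfl⟩
    · show (1 + κ) • ((1 - ε ^ 2)⁻¹ / (1 + κ)) • c1 = (1 - ε ^ 2)⁻¹ • c1
      rw [smul_smul, mul_div_cancel₀ _ hpos.ne']
    · rcases hκ0.eq_or_lt with h2 | h2
      · have h3 : ε / (1 - ε ^ 2) = 0 := le_antisymm (by rw [h2]; exact hκ) (by positivity)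
        rw [h3, zero_smul]
        exact ⟨0, hC0, smul_zero _⟩
      · refine ⟨((ε / (1 - ε ^ 2)) / κ) • c2, hCs _ (by positivity) ((div_le_one h2).2 hκ) _ hc2, ?_⟩
        show κ • ((ε / (1 - ε ^ 2)) / κ) • c2 = (ε / (1 - ε ^ 2)) • c2
        rw [smul_smul, mul_div_cancel₀ _ h2.ne']
  have k8 := hf1 _ hS
  rw [map_sub, map_smul, map_smul, smul_eq_mul, smul_eq_mul] at k8
  have k9 : (f c1 - ε * f c2) / (1 - ε ^ 2) = (1 - ε ^ 2)⁻¹ * f c1 - ε / (1 - ε ^ 2) * f c2 := by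
    field_simp
  linarith

end

section
variable {V : Type*} [NormedAddCommGroup V] [InnerProductSpace ℝ V] [FiniteDimensional ℝ V]
  [MeasurableSpace V] [BorelSpace V]

omit [MeasurableSpace V] [BorelSpace V] in
/-- a cone whose dual is almost acute has interior points -/
lemma CC.int_ne {K : Set V} (h : CC K) {ε : ℝ} (h1 : ε < 1) (hna : NA K ε) : (interior K).Nonempty := by
  rw [h.co.interior_nonempty_iff_affineSpan_eq_top]
  have h2 : Submodule.span ℝ K = ⊤ := by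
    by_contra hne
    have h3 : (Submodule.span ℝ K)ᗮ ≠ ⊥ := by
      rwa [Ne, Submodule.orthogonal_eq_bot_iff]
    obtain ⟨v, hv, hv0⟩ := Submodule.exists_mem_ne_zero_of_ne_bot h3
    have h4 : ∀ x ∈ K, ⟪x, v⟫ = 0 := fun x hx => (Submodule.mem_orthogonal _ _).1 hv x (Submodule.subset_span hx)
    have h5 : v ∈ dl K := fun x hx => (h4 x hx).ge
    have h6 : -v ∈ dl K := fun x hx => by rw [inner_neg_right, h4 x hx, neg_zero]
    have h7 := hna v h5 (-v) h6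
    rw [inner_neg_right, norm_neg, real_inner_self_eq_norm_sq] at h7
    have h8 : 0 < ‖v‖ := norm_pos_iff.2 hv0
    nlinarith [mul_pos h8 h8]
  rw [← AffineSubspace.coe_eq_univ_iff] 
  apply Set.eq_univ_of_forall
  intro x
  have h3 : x ∈ Submodule.span ℝ K := by rw [h2]; trivial
  have h4 := affineSpan_insert_zero (k := ℝ) K
  rw [Set.insert_eq_of_mem h.zero] at h4
  rw [h4]
  exact h3

/-- the part in the ball of a cone whose dual is almost acute has positive volume -/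
lemma CC.vol_ne {K : Set V} (h : CC K) {ε : ℝ} (h1 : ε < 1) (hna : NA K ε) :
    volume (K ∩ closedBall (0 : V) 1) ≠ 0 := by
  obtain ⟨x, hx⟩ := h.int_ne h1 hna
  -- move `x` into the open ball
  set c : ℝ := 1 / (2 * (‖x‖ + 1)) with hc
  have hc0 : 0 < c := by positivity
  have h2 : c • x ∈ ball (0 : V) 1 := by
    rw [mem_ball_zero_iff, norm_smul, Real.norm_of_nonneg hc0.le, hc, div_mul_eq_mul_div, one_mul,
      div_lt_one (by positivity)]
    have := norm_nonneg x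
    linarith
  have h3 : c • x ∈ interior K := by
    have h4 : c • interior K ⊆ interior K := by
      refine interior_maximal ?_ (isOpen_interior.smul₀ hc0.ne')
      rintro _ ⟨y, hy, rfl⟩
      exact h.sm c hc0 y (interior_subset hy)
    exact h4 ⟨x, hx, rfl⟩
  have h5 : (interior K ∩ ball (0 : V) 1).Nonempty := ⟨_, h3, h2⟩
  have h6 : 0 < volume (interior K ∩ ball (0 : V) 1) :=
    (isOpen_interior.inter isOpen_ball).measure_pos _ h5
  exact (h6.trans_le (measure_mono (Set.inter_subset_inter interior_subset ball_subset_closedBall))).ne'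

/-- **the volume of a cone whose dual cone is almost acute** -/
theorem CC.near {K : Set V} (h : CC K) {ε κ : ℝ} (h0 : 0 ≤ ε) (h1 : ε < 1) (hκ0 : 0 < κ) (hκ1 : κ < 1)
    (hκ : ε / (1 - ε ^ 2) ≤ κ * κ) (hna : NA K ε) :
    ENNReal.ofReal ((1 - κ) ^ finrank ℝ V) * volume (ball (0 : V) 1) ≤
      ENNReal.ofReal ((2 * (1 + κ)) ^ finrank ℝ V) * volume (K ∩ closedBall (0 : V) 1) := by
  have h2 := PCS.vol_cone (K := MM K) isClosed_closure h.convex_MM (fun c hc x hx => h.smul_MM hc.le hx)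
    (fun y hy => h.dual_MM hy)
  have h3 : volume (MM K ∩ ball 0 1) ≤ volume ((1 + κ * κ) • (K ∩ closedBall (0 : V) 1) -
      (κ * κ) • (K ∩ closedBall (0 : V) 1)) :=
    measure_mono ((Set.inter_subset_inter_right _ ball_subset_closedBall).trans (h.incl h0 h1 hκ hna))
  have h4 := rs h.convex' h.compact (h.vol_ne h1 hna) hκ0.le hκ1 hκ0
  have h5 : ENNReal.ofReal ((2 * (1 + κ)) ^ finrank ℝ V) = 2 ^ finrank ℝ V * ENNReal.ofReal ((1 + κ) ^ finrank ℝ V) := by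
    rw [mul_pow, ENNReal.ofReal_mul (by positivity), ENNReal.ofReal_pow (by norm_num)]
    norm_num
  calc ENNReal.ofReal ((1 - κ) ^ finrank ℝ V) * volume (ball (0 : V) 1)
      ≤ ENNReal.ofReal ((1 - κ) ^ finrank ℝ V) * (2 ^ finrank ℝ V * volume ((1 + κ * κ) • (K ∩ closedBall (0 : V) 1) -
      (κ * κ) • (K ∩ closedBall (0 : V) 1))) := by
        gcongr
        refine h2.trans ?_
        gcongr
    _ = 2 ^ finrank ℝ V * (ENNReal.ofReal ((1 - κ) ^ finrank ℝ V) * volume ((1 + κ * κ) • (K ∩ closedBall (0 : V) 1) -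
      (κ * κ) • (K ∩ closedBall (0 : V) 1))) := by ring
    _ ≤ 2 ^ finrank ℝ V * (ENNReal.ofReal ((1 + κ) ^ finrank ℝ V) * volume (K ∩ closedBall (0 : V) 1)) := by
        gcongr
    _ = _ := by rw [h5, mul_assoc]

end

end PCG
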