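import Mathlib

/-!
# An inequality of Rogers-Shephard type
-/

set_option autoImplicit false

open MeasureTheory Module Set
open scoped ENNReal Pointwise

namespace PCG

section
variable {V : Type*} [NormedAddCommGroup V] [InnerProductSpace ℝ V] [FiniteDimensional ℝ V]
  [MeasurableSpace V] [BorelSpace V]

/-- the overlap of `A` and the translate `x + B` -/
noncomputable def ov (A B : Set V) (x : V) : ℝ≥0∞ :=
  ∫⁻ y, A.indicator 1 y * B.indicator 1 (y - x)

lemma ov_eq {A B : Set V} (hA : MeasurableSet A) (hB : MeasurableSet B) (x : V) :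
    ov A B x = volume {y | y ∈ A ∧ y - x ∈ B} := by
  have hm : MeasurableSet {y | y ∈ A ∧ y - x ∈ B} :=
    hA.inter ((measurable_id.sub_const x) hB)
  rw [← lintegral_indicator_one hm]
  unfold ov
  refine lintegral_congr fun y => ?_
  by_cases h1 : y ∈ A <;> by_cases h2 : y - x ∈ B <;> simp [h1, h2]

lemma measurable_uncurry {A B : Set V} (hA : MeasurableSet A) (hB : MeasurableSet B) :
    Measurable (Function.uncurry fun x y : V => A.indicator (1 : V → ℝ≥0∞) y * B.indicator 1 (y - x)) := by
  have h1 : Measurable (A.indicator (1 : V → ℝ≥0∞)) := measurable_one.indicator hA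
  have h2 : Measurable (B.indicator (1 : V → ℝ≥0∞)) := measurable_one.indicator hB
  exact (h1.comp measurable_snd).mul (h2.comp (measurable_snd.sub measurable_fst))

lemma measurable_ov {A B : Set V} (hA : MeasurableSet A) (hB : MeasurableSet B) : Measurable (ov A B) :=
  (measurable_uncurry hA hB).lintegral_prod_right'

lemma lintegral_ov {A B : Set V} (hA : MeasurableSet A) (hB : MeasurableSet B) :
    ∫⁻ x, ov A B x = volume A * volume B := by
  unfold ov
  rw [lintegral_lintegral_swap (measurable_uncurry hA hB).aemeasurable]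
  have h1 : ∀ y : V, ∫⁻ x, A.indicator (1 : V → ℝ≥0∞) y * B.indicator 1 (y - x) =
      A.indicator (1 : V → ℝ≥0∞) y * volume B := by
    intro y
    have h3 : Measurable fun x : V => B.indicator (1 : V → ℝ≥0∞) (y - x) :=
      (measurable_one.indicator hB).comp (measurable_const.sub measurable_id)
    rw [lintegral_const_mul _ h3]
    congr 1
    have h2 := lintegral_sub_left_eq_self (μ := (volume : Measure V)) (B.indicator (1 : V → ℝ≥0∞)) y
    rw [h2, lintegral_indicator_one hB]
  simp only [h1]
  rw [lintegral_mul_const _ (measurable_one.indicator hA), lintegral_indicator_one hA]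

/-- the volume of `C - θ l (C - C)` -/
theorem rs {C : Set V} (hC : Convex ℝ C) (hcp : IsCompact C) (h0 : volume C ≠ 0)
    {θ l : ℝ} (hθ0 : 0 ≤ θ) (hθ : θ < 1) (hl : 0 < l) :
    ENNReal.ofReal ((1 - θ) ^ finrank ℝ V) * volume ((1 + θ * l) • C - (θ * l) • C) ≤
      ENNReal.ofReal ((1 + l) ^ finrank ℝ V) * volume C := by
  set A : Set V := (1 + l) • C with hAdef
  set B : Set V := l • C with hBdef
  have hAc : IsCompact A := hcp.smul _
  have hBc : IsCompact B := hcp.smul _
  have hAm : MeasurableSet A := hAc.measurableSet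
  have hBm : MeasurableSet B := hBc.measurableSet
  have hvA : volume A = ENNReal.ofReal ((1 + l) ^ finrank ℝ V) * volume C := by
    rw [hAdef, Measure.addHaar_smul, abs_of_nonneg (by positivity)]
  have hvB : volume B = ENNReal.ofReal (l ^ finrank ℝ V) * volume C := by
    rw [hBdef, Measure.addHaar_smul, abs_of_nonneg (by positivity)]
  have hB0 : volume B ≠ 0 := by
    rw [hvB]
    exact mul_ne_zero (by rw [Ne, ENNReal.ofReal_eq_zero, not_le]; positivity) h0
  have hB1 : volume B ≠ ∞ := hBc.measure_lt_top.ne
  set c : ℝ≥0∞ := ENNReal.ofReal ((1 - θ) ^ finrank ℝ V) * volume B with hc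
  have h1θ : 0 ≤ 1 - θ := by linarith
  have hsub : (1 + θ * l) • C - (θ * l) • C ⊆ {x | c ≤ ov A B x} := by
    rintro x ⟨_, ⟨u, hu, rfl⟩, _, ⟨v, hv, rfl⟩, rfl⟩
    show c ≤ ov A B _
    rw [ov_eq hAm hBm]
    -- `x = (1 - θ) u + θ ((1 + l) u - l v)`
    set x : V := (1 + θ * l) • u - (θ * l) • v with hx
    have hT : volume ((fun b => (1 - θ) • b + ((1 - θ) • u + (θ * (1 + l)) • u)) '' B) = c := by
      have e : (fun b : V => (1 - θ) • b + ((1 - θ) • u + (θ * (1 + l)) • u)) '' B =
          (fun y => y + ((1 - θ) • u + (θ * (1 + l)) • u)) '' ((1 - θ) • B) := by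
        rw [← image_smul, image_image]
      rw [e, image_add_right, measure_preimage_add_right, Measure.addHaar_smul, abs_of_nonneg (by positivity)]
    rw [← hT]
    refine measure_mono ?_
    rintro _ ⟨b, ⟨w, hw, rfl⟩, rfl⟩
    constructor
    · -- in `A`
      have hl1 : 0 < 1 + l := by linarith
      refine ⟨(1 - θ) • ((l / (1 + l)) • w + (1 / (1 + l)) • u) + θ • u, ?_, ?_⟩
      · refine hC ?_ hu h1θ hθ0 (by ring)
        refine hC hw hu (by positivity) (by positivity) ?_
        field_simp
        ring
      · have e1 : (1 + l) * (l / (1 + l)) = l := by field_simp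
        have e2 : (1 + l) * (1 / (1 + l)) = 1 := by field_simp
        simp only [smul_add, smul_smul]
        have e3 : (1 + l) * ((1 - θ) * (l / (1 + l))) = (1 - θ) * l := by
          rw [mul_left_comm, e1]
        have e4 : (1 + l) * ((1 - θ) * (1 / (1 + l))) = (1 - θ) := by
          rw [mul_left_comm, e2, mul_one]
        rw [e3, e4]
        module
    · -- in `x + B`
      refine ⟨(1 - θ) • w + θ • v, hC hw hv h1θ hθ0 (by ring), ?_⟩
      module
  have h2 := mul_meas_ge_le_lintegral (μ := (volume : Measure V)) (measurable_ov hAm hBm) c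
  rw [lintegral_ov hAm hBm] at h2
  have h3 : c * volume ((1 + θ * l) • C - (θ * l) • C) ≤ volume A * volume B :=
    (mul_le_mul_right (measure_mono hsub) c).trans h2
  rw [hc, mul_right_comm] at h3
  rw [← hvA]
  exact (ENNReal.mul_le_mul_iff_left hB0 hB1).1 h3

end

end PCG
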