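import Pool.Agent.PCG.Cell

/-!
# Products of equal planar sectors
-/

set_option autoImplicit false

open MeasureTheory Metric PCW PCS.Sec
open scoped RealInnerProductSpace

namespace PCG

lemma mem_int_sec {θ a : ℝ} {y : E 2} (hy : ‖y‖ < 1) (h1 : 0 < ⟪y, e (a + Real.pi / 2)⟫)
    (h2 : ⟪y, e (a + θ + Real.pi / 2)⟫ < 0) : y ∈ interior (sec θ a) := by
  have ho : IsOpen {x : E 2 | ‖x‖ < 1 ∧ 0 < ⟪x, e (a + Real.pi / 2)⟫ ∧ ⟪x, e (a + θ + Real.pi / 2)⟫ < 0} := by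
    have h3 : IsOpen {x : E 2 | ‖x‖ < 1} := isOpen_lt continuous_norm continuous_const
    have h4 : IsOpen {x : E 2 | 0 < ⟪x, e (a + Real.pi / 2)⟫} := isOpen_lt continuous_const (by fun_prop)
    have h5 : IsOpen {x : E 2 | ⟪x, e (a + θ + Real.pi / 2)⟫ < 0} := isOpen_lt (by fun_prop) continuous_const
    have h6 := h3.inter (h4.inter h5)
    exact h6
  refine (ho.subset_interior_iff.2 ?_) ⟨hy, h1, h2⟩
  rintro x ⟨hx, hx1, hx2⟩
  exact ⟨by rw [mem_closedBall_zero_iff]; exact hx.le, hx1.le, hx2.le⟩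

lemma dj_of_disjoint {θ a b : ℝ} (h : Disjoint (interior (sec θ a)) (interior (sec θ b))) : Dj θ a b := by
  rintro y ⟨⟨h1, h2⟩, h3, h4⟩
  have hc : 0 < (1 + ‖y‖)⁻¹ := by positivity
  have hn : ‖((1 + ‖y‖)⁻¹ • y)‖ < 1 := by
    rw [norm_smul, Real.norm_of_nonneg hc.le, inv_mul_eq_div, div_lt_one (by positivity)]
    linarith
  refine Set.disjoint_left.1 h (mem_int_sec hn ?_ ?_) (mem_int_sec hn ?_ ?_)
  · rw [real_inner_smul_left]
    exact mul_pos hc h1
  · rw [real_inner_smul_left]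
    exact mul_neg_of_pos_of_neg hc h2
  · rw [real_inner_smul_left]
    exact mul_pos hc h3
  · rw [real_inner_smul_left]
    exact mul_neg_of_pos_of_neg hc h4

lemma Dj.symm {θ a b : ℝ} (h : Dj θ a b) : Dj θ b a := fun y hy => h y ⟨hy.2, hy.1⟩

/-- products of equal sectors -/
theorem lower_sect {t : ℝ} {m : ℕ} (hm : 4 ≤ m) (ht : t ≤ Real.sin (2 * Real.pi / m)) (d : ℕ) :
    Pack d t (m ^ (d / 2) * 2 ^ (d % 2)) := by
  have hpi := Real.pi_pos
  have hm4 : (4 : ℝ) ≤ m := by exact_mod_cast hm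
  have hm0 : (0 : ℝ) < m := by linarith
  have h0 : 0 < 2 * Real.pi / m := by positivity
  have h1 : 2 * Real.pi / m ≤ Real.pi / 2 := by
    rw [div_le_div_iff₀ hm0 (by norm_num)]
    nlinarith
  have hcard : m ^ (d / 2) = Fintype.card (Fin (d / 2) → Fin m) := by simp
  rw [hcard]
  refine pack_words h0 h1 (fun w i => ((w i : ℕ) : ℝ) * (2 * Real.pi / m)) (d % 2) ?_ ?_ ht
  · intro k l hkl
    obtain ⟨i, hi⟩ := Function.ne_iff.1 hkl
    refine ⟨i, ?_⟩
    have hi' : (k i : ℕ) ≠ l i := fun h => hi (Fin.ext h)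
    rcases lt_or_gt_of_ne hi' with h | h
    · exact dj_of_disjoint (sec_disjoint hm rfl h (l i).2)
    · exact (dj_of_disjoint (sec_disjoint hm rfl h (k i).2)).symm
  · rw [Fintype.card_fin]
    omega

theorem lower_arcsin {t : ℝ} (ht : 0 < t) (ht1 : t ≤ 1) (d : ℕ) :
    Pack d t (⌊2 * Real.pi / Real.arcsin t⌋₊ ^ (d / 2) * 2 ^ (d % 2)) := by
  have hpi := Real.pi_pos
  have ha : 0 < Real.arcsin t := Real.arcsin_pos.2 ht
  have ha2 : Real.arcsin t ≤ Real.pi / 2 := Real.arcsin_le_pi_div_two t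
  set m : ℕ := ⌊2 * Real.pi / Real.arcsin t⌋₊ with hm
  have hm4 : 4 ≤ m := by
    rw [hm]
    refine Nat.le_floor ?_
    rw [le_div_iff₀ ha]
    push_cast
    linarith
  refine lower_sect hm4 ?_ d
  have hm0 : (0 : ℝ) < m := by
    have : (4 : ℝ) ≤ m := by exact_mod_cast hm4
    linarith
  have h1 : (m : ℝ) ≤ 2 * Real.pi / Real.arcsin t := Nat.floor_le (by positivity)
  have h2 : Real.arcsin t ≤ 2 * Real.pi / m := by
    rw [le_div_iff₀ hm0]
    rw [le_div_iff₀ ha] at h1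
    linarith
  have h3 : 2 * Real.pi / m ≤ Real.pi / 2 := by
    rw [div_le_div_iff₀ hm0 (by norm_num)]
    have : (4 : ℝ) ≤ m := by exact_mod_cast hm4
    nlinarith
  calc t = Real.sin (Real.arcsin t) := (Real.sin_arcsin (by linarith) ht1).symm
    _ ≤ Real.sin (2 * Real.pi / m) := Real.sin_le_sin_of_le_of_le_pi_div_two (by linarith) h3 h2

end PCG
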