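import Pool.Agent.PCG.Lift

/-!
# The upper bound near width one, uniformly in the dimension
-/

set_option autoImplicit false

open MeasureTheory Module Set Metric PCW
open scoped ENNReal Pointwise RealInnerProductSpace

namespace PCG

section
variable {d : ℕ}

lemma vol_KK {C : Set (E d)} (hC : Convex ℝ C) (h : ℝ) :
    volume (KK C h ∩ closedBall (0 : W d) 1) ≤ volume (U C h ∩ closedBall (0 : W d) 1) := by
  have hfr : volume (frontier (U C h)) = 0 := (convex_U hC h).addHaar_frontier _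
  have h2 : KK C h ∩ closedBall (0 : W d) 1 ⊆ (U C h ∩ closedBall (0 : W d) 1) ∪ frontier (U C h) := by
    rintro x ⟨hx, hx'⟩
    unfold KK at hx
    rw [closure_eq_interior_union_frontier] at hx
    rcases hx with hx | hx
    · exact Or.inl ⟨interior_subset hx, hx'⟩
    · exact Or.inr hx
  calc volume (KK C h ∩ closedBall (0 : W d) 1) ≤ _ := measure_mono h2
    _ ≤ volume (U C h ∩ closedBall (0 : W d) 1) + volume (frontier (U C h)) := measure_union_le _ _
    _ = _ := by rw [hfr, add_zero]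

lemma null_inter {C C' : Set (E d)} (hC : Convex ℝ C) (hC' : Convex ℝ C') (hd : Disjoint (interior C) (interior C'))
    {h : ℝ} (hh : 0 < h) : volume (U C h ∩ U C' h) = 0 := by
  set S := U C h ∩ U C' h with hS
  have hco : Convex ℝ S := (convex_U hC h).inter (convex_U hC' h)
  have hint : interior S = ∅ := by
    rw [Set.eq_empty_iff_forall_notMem]
    intro z hz
    have hz0 : 0 < z.snd := (interior_subset hz).1.1
    set g : E d → W d := fun x => pt ((z.snd / h) • x) z.snd with hg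
    have hgc : Continuous g := by
      have h1 := WithLp.prod_continuous_toLp 2 (E d) ℝ
      exact h1.comp (by fun_prop)
    have hx0 : g ((h / z.snd) • z.fst) = z := by
      have e : (z.snd / h) • (h / z.snd) • z.fst = z.fst := by
        rw [smul_smul]
        have : z.snd / h * (h / z.snd) = 1 := by
          field_simp
        rw [this, one_smul]
      rw [hg]
      show pt ((z.snd / h) • (h / z.snd) • z.fst) z.snd = z
      rw [e]
      rfl
    have hsub : g ⁻¹' (interior S) ⊆ C ∩ C' := by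
      intro x hx
      have h1 : g x ∈ S := interior_subset hx
      have e : (h / z.snd) • (z.snd / h) • x = x := by
        rw [smul_smul]
        have : h / z.snd * (z.snd / h) = 1 := by
          field_simp
        rw [this, one_smul]
      have h2 : (h / z.snd) • (z.snd / h) • x ∈ C := h1.1.2
      have h3 : (h / z.snd) • (z.snd / h) • x ∈ C' := h1.2.2
      rw [e] at h2 h3
      exact ⟨h2, h3⟩
    have hopen : IsOpen (g ⁻¹' (interior S)) := isOpen_interior.preimage hgc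
    have h1 : (h / z.snd) • z.fst ∈ interior (C ∩ C') :=
      interior_maximal hsub hopen (by rw [Set.mem_preimage, hx0]; exact hz)
    rw [interior_inter] at h1
    exact Set.disjoint_left.1 hd h1.1 h1.2
  have h1 : S ⊆ frontier S := by
    intro x hx
    have h2 := subset_closure hx
    rw [closure_eq_interior_union_frontier, hint, Set.empty_union] at h2
    exact h2
  exact measure_mono_null h1 (hco.addHaar_frontier volume)

lemma sum_U {m : ℕ} {C : Fin m → Set (E d)} (hC : ∀ i, Convex ℝ (C i))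
    (hd : ∀ i j, i ≠ j → Disjoint (interior (C i)) (interior (C j))) {h : ℝ} (hh : 0 < h) :
    2 * ∑ i, volume (KK (C i) h ∩ closedBall (0 : W d) 1) ≤ volume (closedBall (0 : W d) 1) := by
  have hm : ∀ i, NullMeasurableSet (U (C i) h ∩ closedBall (0 : W d) 1) volume := fun i =>
    ((convex_U (hC i) h).nullMeasurableSet volume).inter isClosed_closedBall.measurableSet.nullMeasurableSet
  have hpd : Pairwise (Function.onFun (AEDisjoint volume) fun i => U (C i) h ∩ closedBall (0 : W d) 1) := by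
    intro i j hij
    refine measure_mono_null ?_ (null_inter (hC i) (hC j) (hd i j hij) hh)
    rintro x ⟨⟨h1, _⟩, h2, _⟩
    exact ⟨h1, h2⟩
  have hsum := measure_iUnion₀ hpd hm
  rw [tsum_fintype] at hsum
  set T : Set (W d) := closedBall 0 1 ∩ {z | 0 < z.snd} with hT
  have hsnd : Continuous fun z : W d => z.snd := WithLp.continuous_snd _ _ _
  have hTm : MeasurableSet T := isClosed_closedBall.measurableSet.inter (measurableSet_lt measurable_const hsnd.measurable)
  have h1 : ∑ i, volume (U (C i) h ∩ closedBall (0 : W d) 1) ≤ volume T := by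
    rw [← hsum]
    refine measure_mono (Set.iUnion_subset fun i => ?_)
    rintro x ⟨hx, hx'⟩
    exact ⟨hx', hx.1⟩
  have h2 : 2 * volume T ≤ volume (closedBall (0 : W d) 1) := by
    have h3 : volume (-T) = volume T := Measure.measure_neg _ _
    have h4 : Disjoint T (-T) := by
      rw [Set.disjoint_left]
      rintro x hx hx'
      have h5 : 0 < x.snd := hx.2
      have h6 : 0 < (-x).snd := (Set.mem_neg.1 hx').2
      have h7 : (-x).snd = -x.snd := rfl
      rw [h7] at h6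
      linarith
    have h5 : volume (T ∪ -T) = volume T + volume (-T) := measure_union h4 hTm.neg
    rw [h3] at h5
    rw [two_mul, ← h5]
    refine measure_mono (Set.union_subset Set.inter_subset_left ?_)
    intro x hx
    have h6 := (Set.mem_neg.1 hx).1
    rwa [mem_closedBall_zero_iff, norm_neg, ← mem_closedBall_zero_iff] at h6
  calc 2 * ∑ i, volume (KK (C i) h ∩ closedBall (0 : W d) 1)
      ≤ 2 * ∑ i, volume (U (C i) h ∩ closedBall (0 : W d) 1) := by
        exact mul_le_mul_right (Finset.sum_le_sum fun i _ => vol_KK (hC i) h) 2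
    _ ≤ 2 * volume T := by gcongr
    _ ≤ _ := h2

/-- the bound with parameters -/
theorem up_param (hd : 1 ≤ d) {m : ℕ} {s h κ ε : ℝ} (hs : 0 ≤ s) (hs1 : s < 1) (hh : 0 < h) (h1 : ε < 1)
    (hε : h + √(2 * s + 2 * h) + s / h ≤ ε) (hκ0 : 0 < κ)
    (hκ1 : κ < 1) (hκ : ε / (1 - ε ^ 2) ≤ κ * κ) (hP : Pack d (1 - s) m) :
    2 * m * (1 - κ) ^ (d + 1) ≤ (2 * (1 + κ)) ^ (d + 1) := by
  obtain ⟨C, hC, hCb, hdis, hw⟩ := hP
  have h0 : 0 ≤ ε := le_trans (by positivity) hε
  have hne : ∀ i, (C i).Nonempty := by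
    intro i
    by_contra hcon
    rw [Set.not_nonempty_iff_eq_empty] at hcon
    have h2 := hw i (EuclideanSpace.single (⟨0, hd⟩ : Fin d) 1) (by simp)
    rw [hcon] at h2
    unfold wd at h2
    rw [Set.image_empty] at h2
    norm_num at h2
    linarith
  have hna : ∀ i, NA (KK (C i) h) ε := fun i y hy y' hy' => by
    have h2 := na_KK (hne i) (hCb i) hs hh (hw i) y hy y' hy'
    refine le_trans ?_ h2
    have h3 : (h + √(2 * s + 2 * h) + s / h) * ‖y‖ * ‖y'‖ ≤ ε * ‖y‖ * ‖y'‖ := by gcongr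
    linarith
  have key : ∀ i, ENNReal.ofReal ((1 - κ) ^ (d + 1)) * volume (closedBall (0 : W d) 1) ≤
      ENNReal.ofReal ((2 * (1 + κ)) ^ (d + 1)) * volume (KK (C i) h ∩ closedBall (0 : W d) 1) := by
    intro i
    have h2 := (cc_KK (hC i) (hne i) hh).near h0 h1 hκ0 hκ1 hκ (hna i)
    rw [finrank_W] at h2
    rwa [Measure.addHaar_unitClosedBall_eq_addHaar_unitBall]
  have hsum : (m : ℝ≥0∞) * (ENNReal.ofReal ((1 - κ) ^ (d + 1)) * volume (closedBall (0 : W d) 1)) ≤
      ENNReal.ofReal ((2 * (1 + κ)) ^ (d + 1)) * ∑ i, volume (KK (C i) h ∩ closedBall (0 : W d) 1) := by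
    rw [Finset.mul_sum]
    calc (m : ℝ≥0∞) * (ENNReal.ofReal ((1 - κ) ^ (d + 1)) * volume (closedBall (0 : W d) 1))
        = ∑ _i : Fin m, ENNReal.ofReal ((1 - κ) ^ (d + 1)) * volume (closedBall (0 : W d) 1) := by
          rw [Finset.sum_const, Finset.card_univ, Fintype.card_fin, nsmul_eq_mul]
      _ ≤ _ := Finset.sum_le_sum fun i _ => key i
  have hv0 : volume (closedBall (0 : W d) 1) ≠ 0 := (measure_closedBall_pos _ _ one_pos).ne'
  have hv1 : volume (closedBall (0 : W d) 1) ≠ ∞ := measure_closedBall_lt_top.ne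
  have h3 : ENNReal.ofReal (2 * m * (1 - κ) ^ (d + 1)) * volume (closedBall (0 : W d) 1) ≤
      ENNReal.ofReal ((2 * (1 + κ)) ^ (d + 1)) * volume (closedBall (0 : W d) 1) := by
    have e : ENNReal.ofReal (2 * m * (1 - κ) ^ (d + 1)) = 2 * (m * ENNReal.ofReal ((1 - κ) ^ (d + 1))) := by
      rw [ENNReal.ofReal_mul (by positivity), ENNReal.ofReal_mul (by positivity)]
      simp
      ring
    calc ENNReal.ofReal (2 * m * (1 - κ) ^ (d + 1)) * volume (closedBall (0 : W d) 1)
        = 2 * ((m : ℝ≥0∞) * (ENNReal.ofReal ((1 - κ) ^ (d + 1)) * volume (closedBall (0 : W d) 1))) := by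
          rw [e]; ring
      _ ≤ 2 * (ENNReal.ofReal ((2 * (1 + κ)) ^ (d + 1)) * ∑ i, volume (KK (C i) h ∩ closedBall (0 : W d) 1)) := by
          gcongr
      _ = ENNReal.ofReal ((2 * (1 + κ)) ^ (d + 1)) * (2 * ∑ i, volume (KK (C i) h ∩ closedBall (0 : W d) 1)) := by
          ring
      _ ≤ _ := by
          gcongr
          exact sum_U hC hdis hh
  have h4 := (ENNReal.mul_le_mul_iff_left hv0 hv1).1 h3
  rwa [ENNReal.ofReal_le_ofReal_iff (by positivity)] at h4

/-- **the upper bound near width one** -/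
theorem up (hd : 1 ≤ d) {m : ℕ} {r t : ℝ} (hr0 : 0 < r) (hr : r ≤ 1 / 10) (ht : 1 - r ^ 6 ≤ t) (hP : Pack d t m) :
    (m : ℝ) ≤ 2 ^ d * (1 + 4 * r) ^ (d + 1) := by
  have hP' : Pack d (1 - r ^ 6) m := by
    obtain ⟨C, hC, hCb, hdis, hw⟩ := hP
    exact ⟨C, hC, hCb, hdis, fun i u hu => ht.trans (hw i u hu)⟩
  have hr6 : r ^ 6 ≤ (1 / 10 : ℝ) ^ 6 := pow_le_pow_left₀ hr0.le hr 6
  have hr2 : r ^ 2 ≤ (1 / 10 : ℝ) ^ 2 := pow_le_pow_left₀ hr0.le hr 2
  have hsq : √(2 * r ^ 6 + 2 * r ^ 4) ≤ 143 / 100 * r ^ 2 := by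
    rw [Real.sqrt_le_left (by positivity)]
    have e : (143 / 100 * r ^ 2) ^ 2 - (2 * r ^ 6 + 2 * r ^ 4) = r ^ 4 * (449 / 10000 - 2 * r ^ 2) := by ring
    have : 0 ≤ r ^ 4 * (449 / 10000 - 2 * r ^ 2) := mul_nonneg (by positivity) (by norm_num at hr2 ⊢; linarith)
    linarith
  have hdiv : r ^ 6 / r ^ 4 = r ^ 2 := by
    field_simp
  have hr4 : r ^ 4 ≤ 1 / 100 * r ^ 2 := by
    have : r ^ 4 = r ^ 2 * r ^ 2 := by ring
    rw [this]
    have h2 : 0 ≤ r ^ 2 := by positivity
    norm_num at hr2 ⊢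
    nlinarith
  have hε : r ^ 4 + √(2 * r ^ 6 + 2 * r ^ 4) + r ^ 6 / r ^ 4 ≤ 5 / 2 * r ^ 2 := by
    rw [hdiv]
    nlinarith [sq_nonneg r]
  have hκ1 : 8 / 5 * r < 1 := by linarith
  have h5 : (5 / 2 * r ^ 2) ≤ 1 / 40 := by norm_num at hr2 ⊢; linarith
  have hκ : (5 / 2 * r ^ 2) / (1 - (5 / 2 * r ^ 2) ^ 2) ≤ (8 / 5 * r) * (8 / 5 * r) := by
    have h6 : (5 / 2 * r ^ 2) ^ 2 ≤ (1 / 40 : ℝ) ^ 2 := pow_le_pow_left₀ (by positivity) h5 2
    rw [div_le_iff₀ (by norm_num at h6 ⊢; linarith)]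
    have h7 : 0 ≤ r ^ 2 := by positivity
    have h8 : (8 / 5 * r) * (8 / 5 * r) * (1 - (1 / 40 : ℝ) ^ 2) ≤ (8 / 5 * r) * (8 / 5 * r) * (1 - (5 / 2 * r ^ 2) ^ 2) := by
      gcongr
    refine le_trans ?_ h8
    nlinarith
  have h1 := up_param hd (s := r ^ 6) (h := r ^ 4) (κ := 8 / 5 * r) (ε := 5 / 2 * r ^ 2) (by positivity)
    (by norm_num at hr6 ⊢; linarith) (by positivity) (by linarith) hε (by positivity) hκ1 hκ hP'
  -- conclude
  have hpos : 0 < 1 - 8 / 5 * r := by linarith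
  have h2 : (1 + 8 / 5 * r) ≤ (1 + 4 * r) * (1 - 8 / 5 * r) := by nlinarith
  have h3 : (1 + 8 / 5 * r) ^ (d + 1) ≤ ((1 + 4 * r) * (1 - 8 / 5 * r)) ^ (d + 1) :=
    pow_le_pow_left₀ (by positivity) h2 _
  rw [mul_pow] at h3 h1
  have h4 : (0 : ℝ) < (1 - 8 / 5 * r) ^ (d + 1) := by positivity
  have h5 : 2 * (m : ℝ) * (1 - 8 / 5 * r) ^ (d + 1) ≤
      (2 * (2 ^ d * (1 + 4 * r) ^ (d + 1))) * (1 - 8 / 5 * r) ^ (d + 1) := by
    refine h1.trans ?_
    calc (2 : ℝ) ^ (d + 1) * (1 + 8 / 5 * r) ^ (d + 1) ≤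
        2 ^ (d + 1) * ((1 + 4 * r) ^ (d + 1) * (1 - 8 / 5 * r) ^ (d + 1)) := by gcongr
      _ = _ := by rw [pow_succ]; ring
  have h6 := le_of_mul_le_mul_right h5 h4
  linarith

end

end PCG
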